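import Pool.Agent.Lib.MP_af3d17_nt_h20.PowerSum

/-!
# MP_af3d17_nt: aligning several points near the unit circle
-/

set_option autoImplicit false

namespace Pool.Agent.ZP31

open Finset Complex Filter Topology Metric

/-- simultaneous approximation (pigeonhole) -/
theorem dirichlet {ι : Type*} [Fintype ι] (θ : ι → ℝ) {Q : ℕ} (hQ : 1 ≤ Q) :
    ∃ q : ℕ, 1 ≤ q ∧ q ≤ Q ^ Fintype.card ι ∧ ∀ i, ∃ p : ℤ, |(q : ℝ) * θ i - p| ≤ 1 / Q := by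
  classical
  have hQ0 : (0 : ℝ) < Q := by exact_mod_cast hQ
  have hfl : ∀ (a : ℕ) (i : ι), ⌊(Q : ℝ) * Int.fract ((a : ℝ) * θ i)⌋₊ < Q := by
    intro a i
    rw [Nat.floor_lt (by positivity)]
    have h1 := Int.fract_lt_one ((a : ℝ) * θ i)
    have h2 := mul_lt_mul_of_pos_left h1 hQ0
    linarith
  obtain ⟨F, hF⟩ : ∃ F : ℕ → (ι → Fin Q), F = fun a i => ⟨_, hfl a i⟩ := ⟨_, rfl⟩
  have hcard : (univ : Finset (ι → Fin Q)).card < (range (Q ^ Fintype.card ι + 1)).card := by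
    rw [card_univ, Fintype.card_fun, Fintype.card_fin, card_range]
    exact Nat.lt_succ_self _
  obtain ⟨a, ha, b, hb, hab, hFab⟩ := exists_ne_map_eq_of_card_lt_of_maps_to hcard
    (f := F) (fun a _ => mem_coe.2 (mem_univ _))
  wlog hlt : a < b generalizing a b
  · exact this b hb a ha hab.symm hFab.symm (lt_of_le_of_ne (not_lt.1 hlt) hab.symm)
  rw [mem_range] at hb
  refine ⟨b - a, by omega, by omega, fun i => ⟨⌊(b : ℝ) * θ i⌋ - ⌊(a : ℝ) * θ i⌋, ?_⟩⟩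
  have h1 : ⌊(Q : ℝ) * Int.fract ((a : ℝ) * θ i)⌋₊ = ⌊(Q : ℝ) * Int.fract ((b : ℝ) * θ i)⌋₊ := by
    have := congrFun hFab i
    rw [hF] at this
    exact congrArg Fin.val this
  have h2 := Int.floor_add_fract ((a : ℝ) * θ i)
  have h3 := Int.floor_add_fract ((b : ℝ) * θ i)
  obtain ⟨x, hx⟩ : ∃ x : ℝ, x = Int.fract ((a : ℝ) * θ i) := ⟨_, rfl⟩
  obtain ⟨y, hy⟩ : ∃ y : ℝ, y = Int.fract ((b : ℝ) * θ i) := ⟨_, rfl⟩
  have hx0 : 0 ≤ x := by rw [hx]; exact Int.fract_nonneg _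
  have hy0 : 0 ≤ y := by rw [hy]; exact Int.fract_nonneg _
  rw [← hx, ← hy] at h1
  rw [← hx] at h2
  rw [← hy] at h3
  have h4 := Nat.floor_le (show 0 ≤ (Q : ℝ) * x by positivity)
  have h5 := Nat.lt_floor_add_one ((Q : ℝ) * x)
  have h6 := Nat.floor_le (show 0 ≤ (Q : ℝ) * y by positivity)
  have h7 := Nat.lt_floor_add_one ((Q : ℝ) * y)
  rw [h1] at h4 h5
  have e : ((b - a : ℕ) : ℝ) * θ i - ((⌊(b : ℝ) * θ i⌋ - ⌊(a : ℝ) * θ i⌋ : ℤ) : ℝ) = y - x := by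
    rw [Nat.cast_sub hlt.le]
    push_cast
    linarith
  have e4 : |y - x| * (Q : ℝ) = |(y - x) * Q| := by rw [abs_mul, abs_of_pos hQ0]
  rw [e, le_div_iff₀ hQ0, e4, abs_le]
  constructor <;> nlinarith

/-- all points are moved close to `1` by a common power -/
theorem align {ι : Type*} [Fintype ι] {w : ι → ℂ} {h : ℝ} (h0 : 0 ≤ h) (h1 : h ≤ 1)
    (hw : ∀ i, ‖w i‖ ≤ 1) (hw' : ∀ i, 1 ≤ (1 + h) * ‖w i‖ ^ 2) {m0 Q : ℕ}
    (hQ : 1 ≤ Q) : ∃ m : ℕ, m0 ≤ m ∧ m ≤ m0 * Q ^ Fintype.card ι ∧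
      ∀ i, ‖1 - w i ^ m‖ ≤ 7 / Q + m * h := by
  have hQ0 : (0 : ℝ) < Q := by exact_mod_cast hQ
  have hpi := Real.pi_pos
  obtain ⟨q, hq1, hq2, hq⟩ := dirichlet (fun i => (m0 : ℝ) * (w i).arg / (2 * Real.pi)) hQ
  refine ⟨m0 * q, Nat.le_mul_of_pos_right _ hq1, Nat.mul_le_mul_left _ hq2, fun i => ?_⟩
  obtain ⟨m, hm⟩ : ∃ m : ℕ, m = m0 * q := ⟨_, rfl⟩
  rw [← hm]
  obtain ⟨p, hp⟩ := hq i
  obtain ⟨x, hx⟩ : ∃ x : ℝ, x = m * (w i).arg - 2 * Real.pi * p := ⟨_, rfl⟩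
  have hx1 : |x| ≤ 7 / Q := by
    have e : x = 2 * Real.pi * ((q : ℝ) * ((m0 : ℝ) * (w i).arg / (2 * Real.pi)) - p) := by
      rw [hx, hm]
      push_cast
      field_simp
    rw [e, abs_mul, abs_of_pos (by positivity : 0 < 2 * Real.pi)]
    have h2 : 2 * Real.pi ≤ 7 := by linarith [Real.pi_lt_d2]
    calc 2 * Real.pi * |(q : ℝ) * ((m0 : ℝ) * (w i).arg / (2 * Real.pi)) - p|
        ≤ 7 * (1 / Q) := mul_le_mul h2 hp (abs_nonneg _) (by norm_num)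
      _ = 7 / Q := by ring
  have e1 : w i ^ m = (‖w i‖ ^ m : ℝ) * Complex.exp (x * I) := by
    conv_lhs => rw [← Complex.norm_mul_exp_arg_mul_I (w i)]
    rw [mul_pow, ← Complex.exp_nat_mul, Complex.ofReal_pow]
    congr 1
    rw [Complex.exp_eq_exp_iff_exists_int]
    refine ⟨p, ?_⟩
    rw [hx]
    push_cast
    ring
  have hr0 : 0 ≤ ‖w i‖ := norm_nonneg _
  have hr1 := hw i
  have hr2 : 1 - h ≤ ‖w i‖ := by
    have h2 := hw' i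
    have h3 : ‖w i‖ ^ 2 ≤ ‖w i‖ := by nlinarith
    nlinarith
  have hr3 : 1 - m * h ≤ ‖w i‖ ^ m := by
    have h2 := one_add_mul_le_pow (a := -h) (by linarith) m
    have h3 : (1 + -h) ^ m ≤ ‖w i‖ ^ m := pow_le_pow_left₀ (by linarith) (by linarith) m
    calc 1 - m * h = 1 + m * -h := by ring
      _ ≤ (1 + -h) ^ m := h2
      _ ≤ _ := h3
  have hr4 : ‖w i‖ ^ m ≤ 1 := pow_le_one₀ hr0 hr1
  have e2 : 1 - w i ^ m = (1 - Complex.exp (x * I)) +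
      ((1 - ‖w i‖ ^ m : ℝ) : ℂ) * Complex.exp (x * I) := by
    rw [e1]; push_cast; ring
  rw [e2]
  refine (norm_add_le _ _).trans (add_le_add ?_ ?_)
  · rw [norm_sub_rev]
    refine le_trans ?_ hx1
    have h5 := Real.norm_exp_I_mul_ofReal_sub_one_le (x := x)
    rw [mul_comm I (x : ℂ), Real.norm_eq_abs] at h5
    exact h5
  · rw [norm_mul, Complex.norm_exp_ofReal_mul_I, mul_one, Complex.norm_real,
      Real.norm_of_nonneg (by linarith)]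
    linarith

/-- several points close to `1` -/
theorem many_points {n : ℕ} {v : Fin n → ℂ} (hv : ∀ i, ‖v i‖ ≤ 1) (S : Finset (Fin n)) {η : ℝ}
    (hS1 : ∀ i ∈ S, ‖1 - v i‖ ≤ η) {J0 : ℕ} {L : ℝ} (hL : 0 ≤ L)
    (hS : ∀ j ≥ J0, ‖∑ i, v i ^ j‖ ≤ L) {H : ℝ} (hH : 1 ≤ H) :
    S.card * (H / (1 + H * η) ^ 2) ≤ n * J0 + L * H := by
  obtain ⟨l, hl⟩ : ∃ l : ℝ, l = 1 - 1 / H := ⟨_, rfl⟩
  have hH0 : 0 < H := by linarith
  have hH1 : 1 / H ≤ 1 := by rw [div_le_one hH0]; exact hH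
  have hHp : 0 < 1 / H := by positivity
  have hl0 : 0 ≤ l := by rw [hl]; linarith
  have hl1 : l < 1 := by rw [hl]; linarith
  refine le_trans ?_ (ZP20.abel hv hL hS hH hl)
  have h1 : ∑ i ∈ S, (H / (1 + H * η) ^ 2) ≤ ∑ i ∈ S, ((1 - l * v i)⁻¹).re :=
    Finset.sum_le_sum fun i hi => ZP20.re_inv_close (hv i) (hS1 i hi) hH hl
  rw [Finset.sum_const, nsmul_eq_mul] at h1
  refine h1.trans ?_
  refine Finset.sum_le_sum_of_subset_of_nonneg (subset_univ S) fun i _ _ => ?_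
  have h2 : ‖(l : ℂ) * v i‖ < 1 := by
    rw [norm_mul, Complex.norm_real, Real.norm_of_nonneg hl0]
    calc l * ‖v i‖ ≤ l * 1 := mul_le_mul_of_nonneg_left (hv i) hl0
      _ < 1 := by linarith
  exact ZP20.re_inv_one_sub h2

end Pool.Agent.ZP31
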