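import Pool.Agent.Lib.MP_af3d17_nt_h31.Local
import Pool.Agent.Lib.MP_af3d17_nt_h98.Count

/-!
# MP_af3d17_nt: counting zeros with multiplicity
-/

set_option autoImplicit false

namespace Pool.Agent.ZP31

open Finset Complex Filter Topology Metric
open Pool.Agent.ZP

/-- pairs (zero, index below its order) in the disc of radius `√(1 + h)` about `3/2 + it` -/
def zerosIn (t h : ℝ) : Set (ℂ × ℕ) :=
  {p | riemannZeta p.1 = 0 ∧ ‖p.1 - (3 / 2 + t * I)‖ ^ 2 ≤ 1 + h ∧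
    (p.2 : ℕ∞) < analyticOrderAt riemannZeta p.1}

lemma mem_big_disc {t h : ℝ} (h1 : h ≤ 1 / 5) {s : ℂ}
    (hs : ‖s - (3 / 2 + t * I)‖ ^ 2 ≤ 1 + h) : s ∈ closedBall (pt 10 t) (96 / 10) := by
  rw [mem_closedBall, dist_eq_norm]
  have e : s - pt 10 t = (s - (3 / 2 + t * I)) + ((-17 / 2 : ℝ) : ℂ) := by
    apply Complex.ext
    · simp [pt]; ring
    · simp [pt]
  have h2 : ‖s - (3 / 2 + t * I)‖ ≤ 11 / 10 := by
    have : ‖s - (3 / 2 + t * I)‖ ^ 2 ≤ (11 / 10) ^ 2 := by norm_num; linarith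
    exact (abs_le_of_sq_le_sq' this (by norm_num)).2
  rw [e]
  refine (norm_add_le _ _).trans ?_
  rw [Complex.norm_real, Real.norm_eq_abs]
  have h3 : |(-17 / 2 : ℝ)| = 17 / 2 := by norm_num
  rw [h3]
  linarith

theorem encard_zerosIn {C t : ℝ} (ht : 100 ≤ t) {n : ℕ} {z : Fin n → ℂ} (hE : Enum C t z) {h : ℝ}
    (h1 : h ≤ 1 / 5) : (zerosIn t h).encard = ((near z t h).card : ℕ∞) := by
  classical
  obtain ⟨m, hm⟩ : ∃ m : ℂ → ℕ, m = fun ρ => ({i | z i = ρ} : Finset (Fin n)).card := ⟨_, rfl⟩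
  obtain ⟨R, hR⟩ : ∃ R : Finset ℂ, R = (near z t h).image z := ⟨_, rfl⟩
  have hmn : ∀ ρ, m ρ ≤ n := by
    intro ρ
    rw [hm]
    refine (Finset.card_filter_le _ _).trans ?_
    rw [card_univ, Fintype.card_fin]
  have hnear : ∀ i, i ∈ near z t h ↔ ‖z i - (3 / 2 + t * I)‖ ^ 2 ≤ 1 + h := by
    intro i
    rw [mem_near, norm_sub_rev, ZP20.pt_eq]
  obtain ⟨F, hF⟩ : ∃ F : Finset (ℂ × ℕ), F = (R ×ˢ range (n + 1)).filter (fun p => p.2 < m p.1) :=
    ⟨_, rfl⟩
  have hset : zerosIn t h = (F : Set (ℂ × ℕ)) := by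
    ext ⟨ρ, k⟩
    rw [mem_coe, hF, mem_filter, mem_product, mem_range]
    constructor
    · rintro ⟨h2, h3, h4⟩
      simp only at h2 h3 h4
      have h5 := mem_big_disc h1 h3
      rw [hE.order ρ (closedBall_subset_closedBall (by norm_num) h5)] at h4
      have h6 : k < m ρ := by rw [hm]; exact_mod_cast h4
      have h7 : 0 < m ρ := by omega
      rw [hm] at h7
      obtain ⟨i, hi⟩ := Finset.card_pos.1 h7
      have hi' : z i = ρ := (mem_filter.1 hi).2
      refine ⟨⟨?_, by have := hmn ρ; omega⟩, h6⟩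
      rw [hR, mem_image]
      exact ⟨i, (hnear i).2 (by rw [hi']; exact h3), hi'⟩
    · rintro ⟨⟨h2, h3⟩, h4⟩
      simp only at h2 h3 h4
      rw [hR, mem_image] at h2
      obtain ⟨i, hi, hi'⟩ := h2
      have h5 := (hnear i).1 hi
      have h6 := hE.order (z i) (hE.mem i)
      refine ⟨by rw [← hi']; exact hE.zeta ht i, by rw [← hi']; exact h5, ?_⟩
      show (k : ℕ∞) < analyticOrderAt riemannZeta ρ
      rw [← hi', h6]
      rw [hm, ← hi'] at h4
      exact_mod_cast h4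
  rw [hset, Set.encard_coe_eq_coe_finsetCard]
  congr 1
  have c1 : F.card = ∑ ρ ∈ R, (F.filter (fun p => p.1 = ρ)).card := by
    refine Finset.card_eq_sum_card_fiberwise fun p hp => ?_
    have hp' : p ∈ F := hp
    rw [hF, mem_filter, mem_product] at hp'
    exact hp'.1.1
  have c2 : (near z t h).card = ∑ ρ ∈ R, ((near z t h).filter (fun i => z i = ρ)).card := by
    refine Finset.card_eq_sum_card_fiberwise fun i hi => ?_
    rw [hR]
    exact mem_coe.2 (mem_image_of_mem z (mem_coe.1 hi))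
  rw [c1, c2]
  refine Finset.sum_congr rfl fun ρ hρ => ?_
  have d1 : F.filter (fun p => p.1 = ρ) = (range (m ρ)).image (fun k => (ρ, k)) := by
    ext ⟨σ, k⟩
    rw [mem_filter, hF, mem_filter, mem_product, mem_range, mem_image]
    constructor
    · rintro ⟨⟨⟨h2, h3⟩, h4⟩, h5⟩
      simp only at h2 h3 h4 h5
      subst h5
      exact ⟨k, mem_range.2 h4, rfl⟩
    · rintro ⟨l, hl, hl'⟩
      rw [mem_range] at hl
      obtain ⟨rfl, rfl⟩ := Prod.mk.inj hl'
      have := hmn ρ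
      exact ⟨⟨⟨hρ, by simp only; omega⟩, hl⟩, rfl⟩
  have d2 : (near z t h).filter (fun i => z i = ρ) = ({i | z i = ρ} : Finset (Fin n)) := by
    ext i
    rw [mem_filter, mem_filter]
    constructor
    · rintro ⟨_, h3⟩
      exact ⟨mem_univ _, h3⟩
    · rintro ⟨_, h3⟩
      refine ⟨?_, h3⟩
      rw [hR, mem_image] at hρ
      obtain ⟨j, hj, hj'⟩ := hρ
      rw [hnear, h3, ← hj', ← hnear]
      exact hj
  rw [d1, d2, Finset.card_image_of_injective _ (fun a b hab => (Prod.mk.inj hab).2), card_range, hm]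

/-- counting over the fibres -/
lemma encard_fibre {α : Type*} (f : α → ℝ) (X : Finset ℝ) : ∀ A : Set α, (∀ a ∈ A, f a ∈ X) →
    A.encard = ∑ x ∈ X, {a | a ∈ A ∧ f a = x}.encard := by
  classical
  induction X using Finset.induction_on with
  | empty =>
    intro A hA
    have : A = ∅ := Set.eq_empty_of_forall_notMem fun a ha => notMem_empty _ (hA a ha)
    rw [this]; simp
  | insert x X hx ih =>
    intro A hA
    rw [Finset.sum_insert hx]
    have e1 : A = {a | a ∈ A ∧ f a = x} ∪ {a | a ∈ A ∧ f a ≠ x} := by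
      ext a
      by_cases h : f a = x <;> simp [h]
    have h2 : Disjoint {a | a ∈ A ∧ f a = x} {a | a ∈ A ∧ f a ≠ x} := by
      rw [Set.disjoint_left]
      rintro a ⟨_, h3⟩ ⟨_, h4⟩
      exact h4 h3
    conv_lhs => rw [e1, Set.encard_union_eq h2]
    congr 1
    rw [ih {a | a ∈ A ∧ f a ≠ x} (fun a ha => by
      have := hA a ha.1
      rw [mem_insert] at this
      exact this.resolve_left ha.2)]
    refine Finset.sum_congr rfl fun y hy => ?_
    congr 1
    ext a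
    constructor
    · rintro ⟨⟨h3, h4⟩, h5⟩
      exact ⟨h3, h5⟩
    · rintro ⟨h3, h5⟩
      refine ⟨⟨h3, ?_⟩, h5⟩
      rintro h6
      rw [h6] at h5
      exact hx (h5 ▸ hy)

/-- as many indices as pairs -/
theorem encard_index {γ : ℕ → ℝ} (hγ : IsOrdinateSeq γ) {W : Set ℝ} {T : ℝ} (hW : ∀ x ∈ W, x ≤ T) :
    {n | γ n ∈ W}.encard = {p : ℂ × ℕ | IsUpperZero p.1 ∧ p.1.im ∈ W ∧
      (p.2 : ℕ∞) < analyticOrderAt riemannZeta p.1}.encard := by
  classical
  have hfin : (Complex.im '' {ρ : ℂ | IsUpperZero ρ ∧ ρ.im ≤ T}).Finite := (finite_zeros T).image _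
  obtain ⟨X, hX⟩ : ∃ X : Finset ℝ, X = hfin.toFinset := ⟨_, rfl⟩
  rw [encard_fibre γ X {n | γ n ∈ W} (fun n hn => by
      obtain ⟨ρ, h1, h2⟩ := exists_zero_of_index hγ n
      rw [hX, Set.Finite.mem_toFinset]
      exact ⟨ρ, ⟨h1, h2.trans_le (hW _ hn)⟩, h2⟩),
    encard_fibre (fun p : ℂ × ℕ => p.1.im) X _ (fun p hp => by
      rw [hX, Set.Finite.mem_toFinset]
      exact ⟨p.1, ⟨hp.1, hW _ hp.2.1⟩, rfl⟩)]
  refine Finset.sum_congr rfl fun x _ => ?_
  by_cases hx : x ∈ W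
  · have e1 : {a | a ∈ {n | γ n ∈ W} ∧ γ a = x} = {n | γ n = x} := by
      ext n
      constructor
      · rintro ⟨_, h2⟩
        exact h2
      · intro h2
        have h2' : γ n = x := h2
        exact ⟨by show γ n ∈ W; rw [h2']; exact hx, h2⟩
    rw [e1, hγ.count]
    congr 1
    ext p
    constructor
    · rintro ⟨h1, h2, h3⟩
      exact ⟨⟨h1, by rw [h2]; exact hx, h3⟩, h2⟩
    · rintro ⟨⟨h1, _, h3⟩, h2⟩
      exact ⟨h1, h2, h3⟩
  · have e1 : {a | a ∈ {n | γ n ∈ W} ∧ γ a = x} = ∅ := by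
      refine Set.eq_empty_of_forall_notMem ?_
      rintro n ⟨h1, h2⟩
      exact hx (h2 ▸ h1)
    have e2 : {p : ℂ × ℕ | p ∈ {p : ℂ × ℕ | IsUpperZero p.1 ∧ p.1.im ∈ W ∧
      (p.2 : ℕ∞) < analyticOrderAt riemannZeta p.1} ∧ p.1.im = x} = ∅ := by
      refine Set.eq_empty_of_forall_notMem ?_
      rintro p ⟨⟨_, h1, _⟩, h2⟩
      exact hx (h2 ▸ h1)
    rw [e1, e2]; simp

/-- all zeros of height `> T0` are on the line -/
def OnLine (T0 : ℝ) : Prop := ∀ ρ : ℂ, IsUpperZero ρ → T0 < ρ.im → ρ.re = 1 / 2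

/-- if the zeros near `t` are on the line, the discs contain as many zeros as there are indices -/
theorem encard_line {γ : ℕ → ℝ} (hγ : IsOrdinateSeq γ) {T0 t h : ℝ} (hT0 : OnLine T0)
    (ht : 100 ≤ t) (htT : T0 + 10 < t) (h1 : h ≤ 1 / 5) :
    (zerosIn t h).encard = {n | (γ n - t) ^ 2 ≤ h}.encard := by
  have h2 : {n | (γ n - t) ^ 2 ≤ h} = {n | γ n ∈ {x : ℝ | (x - t) ^ 2 ≤ h}} := rfl
  rw [h2, encard_index hγ (T := t + 1) (fun x hx => by
    have hx' : (x - t) ^ 2 ≤ 1 ^ 2 := by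
      have : (x - t) ^ 2 ≤ h := hx
      linarith
    have := (abs_le_of_sq_le_sq' hx' (by norm_num)).2
    linarith)]
  congr 1
  ext ⟨ρ, k⟩
  have key : ρ.re = 1 / 2 → ‖ρ - (3 / 2 + t * I)‖ ^ 2 = 1 + (ρ.im - t) ^ 2 := by
    intro h3
    rw [← Complex.normSq_eq_norm_sq, Complex.normSq_apply]
    simp only [Complex.sub_re, Complex.add_re, Complex.mul_re, Complex.sub_im, Complex.add_im,
      Complex.mul_im, Complex.ofReal_re, Complex.ofReal_im, Complex.I_re, Complex.I_im, h3]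
    norm_num
    ring
  constructor
  · rintro ⟨h3, h4, h5⟩
    simp only at h3 h4 h5
    obtain ⟨h6, h7, h8, h9⟩ := mem_disc (mem_big_disc h1 h4)
    have hup : IsUpperZero ρ := by
      refine ⟨h3, by linarith, ?_, by linarith⟩
      by_contra hcon
      exact riemannZeta_ne_zero_of_one_le_re (not_lt.1 hcon) h3
    have h10 := hT0 ρ hup (by linarith)
    rw [key h10] at h4
    exact ⟨hup, by show (ρ.im - t) ^ 2 ≤ h; linarith, h5⟩
  · rintro ⟨h3, h4, h5⟩
    simp only at h3 h4 h5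
    have h4' : (ρ.im - t) ^ 2 ≤ h := h4
    have h6 : (ρ.im - t) ^ 2 ≤ 1 ^ 2 := by linarith
    have h7 := (abs_le_of_sq_le_sq' h6 (by norm_num)).1
    have h10 := hT0 ρ h3 (by linarith)
    refine ⟨h3.1, ?_, h5⟩
    show ‖ρ - (3 / 2 + t * I)‖ ^ 2 ≤ 1 + h
    rw [key h10]
    linarith

/-- the zeros near `t` being on the line, there is none in the open unit disc -/
lemma one_le_of_line {C T0 t : ℝ} (hT0 : OnLine T0) (ht : 100 ≤ t) (htT : T0 + 10 < t) {n : ℕ}
    {z : Fin n → ℂ} (hE : Enum C t z) (i : Fin n) : 1 ≤ ‖pt (3 / 2) t - z i‖ := by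
  obtain ⟨h6, h7, h8, h9⟩ := mem_disc (hE.mem i)
  have h3 := hE.zeta ht i
  have hup : IsUpperZero (z i) := by
    refine ⟨h3, by linarith, ?_, by linarith⟩
    by_contra hcon
    exact riemannZeta_ne_zero_of_one_le_re (not_lt.1 hcon) h3
  have h10 := hT0 _ hup (by linarith)
  have h11 := ZP20.norm_sq_line h10 t
  have h12 : (1 : ℝ) ^ 2 ≤ ‖pt (3 / 2) t - z i‖ ^ 2 := by
    rw [h11]; linarith [sq_nonneg (t - (z i).im)]
  exact (abs_le_of_sq_le_sq' h12 (norm_nonneg _)).2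

end Pool.Agent.ZP31
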