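import Pool.Agent.Lib.MP_af3d17_nt_h31.Count
import Pool.Agent.Lib.MP_af3d17_nt_h98.Seq

/-!
# MP_af3d17_nt: the exponents of the clusters of zeros
-/

set_option autoImplicit false

namespace Pool.Agent.ZP31

open Finset Complex Filter Topology Metric
open Pool.Agent.ZP

variable {γ : ℕ → ℝ}

/-- `log (γ_{n+1+k} - γ_{n+1}) / log (n + 1)`, with `log 0 = -∞`. -/
noncomputable def gapExponent (γ : ℕ → ℝ) (k n : ℕ) : EReal :=
  if γ (n + k) = γ n then ⊥ else ((Real.log (γ (n + k) - γ n) / Real.log (n + 1) : ℝ) : EReal)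

/-- The exponent `α_k`. -/
noncomputable def alpha (γ : ℕ → ℝ) (k : ℕ) : EReal := liminf (gapExponent γ k) atTop

/-- few indices close to `t` -/
lemma ncard_near (hγ : IsOrdinateSeq γ) {T0 : ℝ} (h : OnLine T0) : ∃ C T1 : ℝ, 0 < C ∧ 100 ≤ T1 ∧
    T0 + 10 < T1 ∧ ∀ t ≥ T1, (({n | (γ n - t) ^ 2 ≤ 1 / 5}.ncard : ℕ) : ℝ) ≤ C * Real.log t := by
  obtain ⟨C, T1, hC, hT1, hz⟩ := primeSum_zeros
  refine ⟨C, max T1 (T0 + 11), hC, hT1.trans (le_max_left _ _),
    lt_of_lt_of_le (by linarith) (le_max_right _ _), fun t ht => ?_⟩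
  have ht1 : T1 ≤ t := (le_max_left _ _).trans ht
  have ht2 : T0 + 11 ≤ t := (le_max_right _ _).trans ht
  obtain ⟨n, z, h1, h2, h3, h4⟩ := hz t ht1
  have hE : Enum C t z := ⟨h1, h2, h3, h4⟩
  have h5 := encard_line hγ h (hT1.trans ht1) (by linarith) (le_refl (1 / 5 : ℝ))
  rw [encard_zerosIn (hT1.trans ht1) hE le_rfl] at h5
  have h6 : {n | (γ n - t) ^ 2 ≤ 1 / 5}.ncard = (near z t (1 / 5)).card := by
    rw [Set.ncard, ← h5, ENat.toNat_natCast]
  rw [h6]
  refine le_trans ?_ h1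
  have h7 : (near z t (1 / 5)).card ≤ n := by
    refine (Finset.card_le_univ _).trans ?_
    rw [Fintype.card_fin]
  exact_mod_cast h7

/-- few ordinates in a window of length one -/
lemma ncard_window' (hγ : IsOrdinateSeq γ) {T0 : ℝ} (h : OnLine T0) : ∃ C T1 : ℝ, 0 < C ∧
    100 ≤ T1 ∧ T0 ≤ T1 ∧ ∀ t ≥ T1,
    (({n | t < γ n ∧ γ n ≤ t + 1}.ncard : ℕ) : ℝ) ≤ C * Real.log (t + 1) := by
  obtain ⟨C, T1, hC, hT1, hT0, hw⟩ := ncard_near hγ h
  refine ⟨2 * C, T1, by positivity, hT1, by linarith, fun t ht => ?_⟩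
  have h1 := hw (t + 1 / 4) (by linarith)
  have h2 := hw (t + 3 / 4) (by linarith)
  have hsub : {n | t < γ n ∧ γ n ≤ t + 1} ⊆ {n | (γ n - (t + 1 / 4)) ^ 2 ≤ 1 / 5} ∪
      {n | (γ n - (t + 3 / 4)) ^ 2 ≤ 1 / 5} := by
    rintro n ⟨h3, h4⟩
    rcases le_or_gt (γ n) (t + 1 / 2) with h5 | h5
    · left
      show (γ n - (t + 1 / 4)) ^ 2 ≤ 1 / 5
      nlinarith
    · right
      show (γ n - (t + 3 / 4)) ^ 2 ≤ 1 / 5
      nlinarith
  have hf : ∀ s : ℝ, {n | (γ n - s) ^ 2 ≤ 1 / 5}.Finite := by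
    intro s
    refine (finite_le hγ (s + 1)).subset fun n hn => ?_
    have h3 : (γ n - s) ^ 2 ≤ 1 ^ 2 := by
      have : (γ n - s) ^ 2 ≤ 1 / 5 := hn
      linarith
    have := (abs_le_of_sq_le_sq' h3 (by norm_num)).2
    show γ n ≤ s + 1
    linarith
  have h3 : {n | t < γ n ∧ γ n ≤ t + 1}.ncard ≤ {n | (γ n - (t + 1 / 4)) ^ 2 ≤ 1 / 5}.ncard +
      {n | (γ n - (t + 3 / 4)) ^ 2 ≤ 1 / 5}.ncard :=
    (Set.ncard_le_ncard hsub ((hf _).union (hf _))).trans (Set.ncard_union_le _ _)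
  have h4 : (({n | t < γ n ∧ γ n ≤ t + 1}.ncard : ℕ) : ℝ) ≤
      {n | (γ n - (t + 1 / 4)) ^ 2 ≤ 1 / 5}.ncard + {n | (γ n - (t + 3 / 4)) ^ 2 ≤ 1 / 5}.ncard := by
    exact_mod_cast h3
  have h5 : Real.log (t + 1 / 4) ≤ Real.log (t + 1) := Real.log_le_log (by linarith) (by linarith)
  have h6 : Real.log (t + 3 / 4) ≤ Real.log (t + 1) := Real.log_le_log (by linarith) (by linarith)
  have h7 := mul_le_mul_of_nonneg_left h5 hC.le
  have h8 := mul_le_mul_of_nonneg_left h6 hC.le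
  linarith

/-- `n = O(γ_n log γ_n)` -/
lemma le_gamma_log' (hγ : IsOrdinateSeq γ) {T0 : ℝ} (h : OnLine T0) : ∃ K C : ℝ, 0 < K ∧ 0 < C ∧
    ∀ᶠ n : ℕ in atTop, (n : ℝ) + 1 ≤ K + C * γ n * Real.log (γ n + 1) := by
  obtain ⟨C, T1, hC, hT1, -, hw⟩ := ncard_window' hγ h
  have key : ∀ j : ℕ, (({n | γ n ≤ T1 + j}.ncard : ℕ) : ℝ) ≤
      ({n | γ n ≤ T1}.ncard : ℕ) + C * j * Real.log (T1 + j) := by
    intro j
    induction j with
    | zero => simp
    | succ j ih =>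
      have h1 : {n | γ n ≤ T1 + ((j + 1 : ℕ) : ℝ)} ⊆ {n | γ n ≤ T1 + j} ∪
          {n | T1 + (j : ℝ) < γ n ∧ γ n ≤ T1 + j + 1} := by
        intro n hn
        rcases le_or_gt (γ n) (T1 + j) with h2 | h2
        · exact Or.inl h2
        · right
          refine ⟨h2, ?_⟩
          have : γ n ≤ T1 + ((j + 1 : ℕ) : ℝ) := hn
          push_cast at this
          linarith
      have hfin : ({n | γ n ≤ T1 + j} ∪
          {n | T1 + (j : ℝ) < γ n ∧ γ n ≤ T1 + j + 1}).Finite :=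
        (finite_le hγ _).union ((finite_le hγ (T1 + j + 1)).subset fun n hn => hn.2)
      have h2 : ({n | γ n ≤ T1 + ((j + 1 : ℕ) : ℝ)}.ncard : ℝ) ≤ ({n | γ n ≤ T1 + j}.ncard : ℝ) +
          ({n | T1 + (j : ℝ) < γ n ∧ γ n ≤ T1 + j + 1}.ncard : ℝ) := by
        have := (Set.ncard_le_ncard h1 hfin).trans (Set.ncard_union_le _ _)
        exact_mod_cast this
      have h3 := hw (T1 + j) (by linarith [(Nat.cast_nonneg j : (0 : ℝ) ≤ j)])
      have hj : (0 : ℝ) ≤ j := Nat.cast_nonneg j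
      have h4 : Real.log (T1 + j) ≤ Real.log (T1 + j + 1) :=
        Real.log_le_log (by linarith) (by linarith)
      have h5 : C * j * Real.log (T1 + j) ≤ C * j * Real.log (T1 + j + 1) :=
        mul_le_mul_of_nonneg_left h4 (by positivity)
      push_cast
      have h6 : T1 + ((j : ℝ) + 1) = T1 + j + 1 := by ring
      rw [h6]
      push_cast at h2
      rw [h6] at h2
      linarith
  refine ⟨({n | γ n ≤ T1}.ncard : ℕ) + 1, C, by positivity, hC, ?_⟩
  filter_upwards [(tendsto_gamma hγ).eventually_ge_atTop T1] with n hn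
  have hj1 := Nat.le_ceil (γ n - T1)
  have hj2 := Nat.ceil_lt_add_one (show 0 ≤ γ n - T1 by linarith)
  set j : ℕ := ⌈γ n - T1⌉₊ with hj
  have h1 : (Set.Iic n : Set ℕ) ⊆ {m | γ m ≤ T1 + j} := by
    intro m hm
    have : γ m ≤ γ n := hγ.mono hm
    have h2 : γ m ≤ T1 + (j : ℝ) := by linarith
    exact h2
  have h2 : n + 1 ≤ {m | γ m ≤ T1 + (j : ℝ)}.ncard := by
    have := Set.ncard_le_ncard h1 (finite_le hγ _)
    have h3 : (Set.Iic n : Set ℕ).ncard = n + 1 := by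
      rw [← Finset.coe_Iic, Set.ncard_coe_finset, Nat.card_Iic]
    rw [h3] at this
    exact this
  have h3 : (n : ℝ) + 1 ≤ ({m | γ m ≤ T1 + (j : ℝ)}.ncard : ℝ) := by exact_mod_cast h2
  have h4 := key j
  have h5 : (j : ℝ) ≤ γ n := by linarith
  have h6 : T1 + (j : ℝ) ≤ γ n + 1 := by linarith
  have hj0 : (0 : ℝ) ≤ j := Nat.cast_nonneg j
  have h7 : Real.log (T1 + j) ≤ Real.log (γ n + 1) := Real.log_le_log (by linarith) h6
  have h8 : 0 ≤ Real.log (T1 + j) := Real.log_nonneg (by linarith)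
  have h9 : C * j * Real.log (T1 + j) ≤ C * γ n * Real.log (γ n + 1) := by
    apply mul_le_mul _ h7 h8 _
    · exact mul_le_mul_of_nonneg_left h5 hC.le
    · have : 0 ≤ γ n := by linarith
      positivity
  linarith

/-- `log n ≤ (1 + ε) log γ_n` -/
lemma log_le_gamma' (hγ : IsOrdinateSeq γ) {T0 : ℝ} (h : OnLine T0) {ε : ℝ} (hε : 0 < ε) :
    ∀ᶠ n : ℕ in atTop, Real.log (n + 1) ≤ (1 + ε) * Real.log (γ n) := by
  obtain ⟨K, C, hK, hC, h1⟩ := le_gamma_log' hγ h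
  have h2 : ∀ᶠ x : ℝ in atTop, K + C * x * Real.log (x + 1) ≤ x ^ (1 + ε) := by
    have h3 := (isLittleO_log_rpow_atTop hε).def (show (0 : ℝ) < 1 / (4 * C) by positivity)
    have h4 : ∀ᶠ x : ℝ in atTop, 2 * K ≤ x ^ (1 + ε) :=
      (tendsto_rpow_atTop (by linarith)).eventually_ge_atTop (2 * K)
    filter_upwards [h3, h4, eventually_ge_atTop 2] with x hx1 hx2 hx3
    rw [Real.norm_eq_abs, Real.norm_eq_abs, abs_of_nonneg (Real.log_nonneg (by linarith)),
      abs_of_nonneg (Real.rpow_nonneg (by linarith) _)] at hx1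
    have h5 : Real.log (x + 1) ≤ 2 * Real.log x := by
      have h6 : Real.log (x + 1) ≤ Real.log (x ^ 2) :=
        Real.log_le_log (by linarith) (by nlinarith)
      rwa [Real.log_pow, Nat.cast_ofNat] at h6
    have h7 : C * x * Real.log (x + 1) ≤ C * x * (2 * (1 / (4 * C) * x ^ ε)) :=
      mul_le_mul_of_nonneg_left (by linarith) (by positivity)
    have h8 : C * x * (2 * (1 / (4 * C) * x ^ ε)) = x ^ (1 + ε) / 2 := by
      rw [Real.rpow_add (by linarith), Real.rpow_one]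
      field_simp
      ring
    linarith
  filter_upwards [h1, (tendsto_gamma hγ).eventually h2,
    (tendsto_gamma hγ).eventually_gt_atTop 0] with n hn1 hn2 hn3
  have h3 := Real.log_le_log (by positivity) (hn1.trans hn2)
  rwa [Real.log_rpow hn3] at h3

/-! ### the exponents are not positive -/

lemma gap_le (hγ : IsOrdinateSeq γ) (k : ℕ) : ∀ᶠ n : ℕ in atTop, γ (n + k) - γ n ≤ 21 * k := by
  induction k with
  | zero => exact Eventually.of_forall fun n => by simp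
  | succ k ih =>
    obtain ⟨N, hN⟩ := eventually_atTop.1 (ZP.gap_le hγ)
    filter_upwards [ih, eventually_ge_atTop N] with n h1 h2
    have h3 := hN (n + k) (by omega)
    push_cast
    have e : n + (k + 1) = n + k + 1 := rfl
    rw [e]
    linarith

lemma alpha_le_zero (hγ : IsOrdinateSeq γ) (k : ℕ) : alpha γ k ≤ 0 := by
  refine ereal_le_zero fun c hc => ?_
  refine liminf_le_of_frequently_le' (Eventually.frequently ?_)
  have h2 : Tendsto (fun n : ℕ => Real.log ((n : ℝ) + 1)) atTop atTop :=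
    Real.tendsto_log_atTop.comp (tendsto_natCast_atTop_atTop.atTop_add tendsto_const_nhds)
  filter_upwards [gap_le hγ k, h2.eventually_ge_atTop (Real.log (21 * k) / c),
    h2.eventually_gt_atTop 0] with n h3 h4 h5
  rw [gapExponent]
  split_ifs with h6
  · exact bot_le
  · have h7 : 0 < γ (n + k) - γ n :=
      sub_pos.2 (lt_of_le_of_ne (hγ.mono (Nat.le_add_right n k)) (Ne.symm h6))
    rw [EReal.coe_le_coe_iff, div_le_iff₀ h5]
    rw [div_le_iff₀ hc] at h4
    have h8 := Real.log_le_log h7 h3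
    linarith

/-- lower bounds for the gaps -/
lemma gap_lower (hγ : IsOrdinateSeq γ) {T0 : ℝ} (h : OnLine T0) {k : ℕ} {a : ℝ}
    (ha : (a : EReal) < alpha γ k) :
    ∀ᶠ n : ℕ in atTop, γ n ^ a ≤ γ (n + k) - γ n := by
  obtain ⟨a', h1, h2⟩ := EReal.lt_iff_exists_real_btwn.1 ha
  have h1' : a < a' := by exact_mod_cast h1
  have h3 : a' < 0 := by
    have : (a' : EReal) < 0 := lt_of_lt_of_le h2 (alpha_le_zero hγ k)
    exact_mod_cast this
  have hε : 0 < a / a' - 1 := by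
    rw [sub_pos, lt_div_iff_of_neg h3]
    linarith
  filter_upwards [eventually_lt_of_lt_liminf h2, log_le_gamma' hγ h hε,
    (tendsto_natCast_atTop_atTop (R := ℝ)).eventually_gt_atTop 0,
    (tendsto_gamma hγ).eventually_gt_atTop 0] with n h4 h5 h6 h7
  have hlog : 0 < Real.log ((n : ℝ) + 1) := Real.log_pos (by linarith)
  rw [gapExponent] at h4
  split_ifs at h4 with h8
  · exact absurd h4 not_lt_bot
  · have h9 : 0 < γ (n + k) - γ n :=
      sub_pos.2 (lt_of_le_of_ne (hγ.mono (Nat.le_add_right n k)) (Ne.symm h8))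
    rw [EReal.coe_lt_coe_iff, lt_div_iff₀ hlog] at h4
    have h10 : a' * ((1 + (a / a' - 1)) * Real.log (γ n)) ≤ a' * Real.log ((n : ℝ) + 1) :=
      mul_le_mul_of_nonpos_left h5 h3.le
    have h11 : a' * ((1 + (a / a' - 1)) * Real.log (γ n)) = a * Real.log (γ n) := by
      have := h3.ne
      field_simp
      ring
    rw [← Real.log_le_log_iff (Real.rpow_pos_of_pos h7 _) h9, Real.log_rpow h7]
    linarith

/-- upper bounds for infinitely many gaps -/
lemma gap_upper (hγ : IsOrdinateSeq γ) {k : ℕ} {b : ℝ} (hb0 : b < 0)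
    (hb : alpha γ k < (b : EReal)) :
    ∃ᶠ n : ℕ in atTop, γ (n + k) - γ n ≤ γ n ^ b := by
  obtain ⟨b', h1, h2⟩ := EReal.lt_iff_exists_real_btwn.1 hb
  have h2' : b' < b := by exact_mod_cast h2
  have h3 : b' < 0 := h2'.trans hb0
  have hε : 0 < b' / b - 1 := by
    rw [sub_pos, lt_div_iff_of_neg hb0]
    linarith
  refine ((frequently_lt_of_liminf_lt (by isBoundedDefault) h1).and_eventually
    ((log_gamma_le hγ hε).and (((tendsto_natCast_atTop_atTop (R := ℝ)).eventually_gt_atTop 0).and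
    ((tendsto_gamma hγ).eventually_gt_atTop 0)))).mono ?_
  rintro n ⟨h4, h5, h6, h0⟩
  have hlog : 0 < Real.log ((n : ℝ) + 1) := Real.log_pos (by linarith)
  rw [gapExponent] at h4
  split_ifs at h4 with h8
  · rw [h8, sub_self]
    exact (Real.rpow_pos_of_pos h0 _).le
  have h9 : 0 < γ (n + k) - γ n :=
    sub_pos.2 (lt_of_le_of_ne (hγ.mono (Nat.le_add_right n k)) (Ne.symm h8))
  rw [EReal.coe_lt_coe_iff, div_lt_iff₀ hlog] at h4
  have h10 : b * ((1 + (b' / b - 1)) * Real.log ((n : ℝ) + 1)) ≤ b * Real.log (γ n) :=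
    mul_le_mul_of_nonpos_left h5 hb0.le
  have h11 : b * ((1 + (b' / b - 1)) * Real.log ((n : ℝ) + 1)) = b' * Real.log ((n : ℝ) + 1) := by
    have := hb0.ne
    field_simp
    ring
  rw [← Real.log_le_log_iff h9 (Real.rpow_pos_of_pos h0 _), Real.log_rpow h0]
  linarith

/-- few indices in short windows -/
lemma few_indices (hγ : IsOrdinateSeq γ) {T0 : ℝ} (h : OnLine T0) {k : ℕ} {a h' : ℝ}
    (ha : (a : EReal) < alpha γ k) (ha0 : a < 0) (hh : h' / 2 < a) :
    ∀ᶠ t : ℝ in atTop, {n | (γ n - t) ^ 2 ≤ t ^ h'}.encard ≤ k := by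
  obtain ⟨N, hN⟩ := eventually_atTop.1 (gap_lower hγ h ha)
  have h1 : ∀ᶠ t : ℝ in atTop, 2 * t ^ (h' / 2) < (2 * t) ^ a := by
    have h2 : Tendsto (fun t : ℝ => 2 / 2 ^ a * (1 / t ^ (a - h' / 2))) atTop (𝓝 (2 / 2 ^ a * 0)) := by
      have h3 := tendsto_rpow_neg_atTop (y := a - h' / 2) (by linarith)
      refine (h3.const_mul (2 / 2 ^ a)).congr' ?_
      filter_upwards [eventually_gt_atTop 0] with t ht
      rw [Real.rpow_neg ht.le, one_div]
    rw [mul_zero] at h2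
    filter_upwards [h2.eventually (gt_mem_nhds (by norm_num : (0 : ℝ) < 1)),
      eventually_gt_atTop 0] with t h3 ht
    rw [Real.mul_rpow (by norm_num) ht.le]
    have e : t ^ (h' / 2) * t ^ (a - h' / 2) = t ^ a := by
      rw [← Real.rpow_add ht]; congr 1; ring
    have h4 : (0 : ℝ) < 2 ^ a := by positivity
    have h5 : 0 < t ^ (a - h' / 2) := by positivity
    have h6 : 2 / 2 ^ a * (1 / t ^ (a - h' / 2)) = 2 * t ^ (h' / 2) / (2 ^ a * t ^ a) := by
      rw [← e]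
      have h7 : 0 < t ^ (h' / 2) := by positivity
      field_simp
    rw [h6, div_lt_one (by positivity)] at h3
    exact h3
  filter_upwards [h1, eventually_ge_atTop (γ N + 2), eventually_ge_atTop 2] with t ht1 ht2 ht3
  by_contra hcon
  push Not at hcon
  have hle : ((k + 1 : ℕ) : ℕ∞) ≤ {n | (γ n - t) ^ 2 ≤ t ^ h'}.encard := by
    push_cast
    exact Order.add_one_le_of_lt hcon
  obtain ⟨A, hA1, hA2⟩ := Set.exists_subset_encard_eq hle
  have hfin : A.Finite := Set.finite_of_encard_eq_coe hA2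
  obtain ⟨B, rfl⟩ : ∃ B : Finset ℕ, (B : Set ℕ) = A := ⟨hfin.toFinset, hfin.coe_toFinset⟩
  rw [Set.encard_coe_eq_coe_finsetCard] at hA2
  have hB : B.card = k + 1 := by exact_mod_cast hA2
  have hne : B.Nonempty := Finset.card_pos.1 (by omega)
  obtain ⟨n0, hn0⟩ : ∃ n0, n0 = B.min' hne := ⟨_, rfl⟩
  obtain ⟨n1, hn1⟩ : ∃ n1, n1 = B.max' hne := ⟨_, rfl⟩
  have hn0B : n0 ∈ B := by rw [hn0]; exact B.min'_mem hne
  have hn1B : n1 ∈ B := by rw [hn1]; exact B.max'_mem hne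
  have h2 : n0 + k ≤ n1 := by
    have h3 : B ⊆ Finset.Icc n0 n1 := by
      intro x hx
      rw [Finset.mem_Icc, hn0, hn1]
      exact ⟨B.min'_le x hx, B.le_max' x hx⟩
    have h4 := Finset.card_le_card h3
    rw [hB, Nat.card_Icc] at h4
    omega
  have e0 : (t ^ (h' / 2)) ^ 2 = t ^ h' := by
    rw [← Real.rpow_natCast, ← Real.rpow_mul (by linarith)]
    congr 1
    push_cast
    ring
  have h0 : 0 < t ^ (h' / 2) := by positivity
  have h3 : (γ n0 - t) ^ 2 ≤ (t ^ (h' / 2)) ^ 2 := by rw [e0]; exact hA1 hn0B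
  have h4 : (γ n1 - t) ^ 2 ≤ (t ^ (h' / 2)) ^ 2 := by rw [e0]; exact hA1 hn1B
  have h5 := abs_le_of_sq_le_sq' h3 h0.le
  have h6 := abs_le_of_sq_le_sq' h4 h0.le
  have h7 : γ (n0 + k) ≤ γ n1 := hγ.mono h2
  have h8 : t ^ (h' / 2) ≤ 1 := Real.rpow_le_one_of_one_le_of_nonpos (by linarith) (by linarith)
  have h9 : N ≤ n0 := (lt_index hγ (by linarith)).le
  have h10 := hN n0 h9
  have h11 : (2 * t) ^ a ≤ γ n0 ^ a :=
    Real.rpow_le_rpow_of_nonpos (by linarith) (by linarith) ha0.le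
  linarith

/-- many indices in short windows -/
lemma many_indices {n k : ℕ} (hγ : IsOrdinateSeq γ) {h' : ℝ}
    (h : (γ (n + k) - γ n) ^ 2 ≤ h') : ((k + 1 : ℕ) : ℕ∞) ≤ {m | (γ m - γ n) ^ 2 ≤ h'}.encard := by
  have h1 : ((Finset.Icc n (n + k) : Finset ℕ) : Set ℕ) ⊆ {m | (γ m - γ n) ^ 2 ≤ h'} := by
    intro m hm
    rw [mem_coe, Finset.mem_Icc] at hm
    show (γ m - γ n) ^ 2 ≤ h'
    have h2 := hγ.mono hm.1
    have h3 := hγ.mono hm.2
    nlinarith
  refine le_trans ?_ (Set.encard_le_encard h1)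
  rw [Set.encard_coe_eq_coe_finsetCard, Nat.card_Icc]
  have : n + k + 1 - n = k + 1 := by omega
  rw [this]

end Pool.Agent.ZP31
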