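import Pool.Agent.Lib.MP_af3d17_nt_h20.Taylor

/-!
# MP_af3d17_nt: prime sums and power sums over the zeros, with multiplicities
-/

set_option autoImplicit false

namespace Pool.Agent.ZP31

open Finset Complex Filter Topology Metric
open Pool.Agent.ZP Pool.Agent.ZP20

/-- the order of a finite product of linear factors times a nonvanishing function -/
lemma order_fact {n : ℕ} {z : Fin n → ℂ} {f g : ℂ → ℂ} {s : ℂ}
    (hf : f =ᶠ[𝓝 s] fun w => (∏ i, (w - z i)) * g w) (hg : AnalyticAt ℂ g s) (hg0 : g s ≠ 0) :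
    analyticOrderAt f s = (({i | z i = s} : Finset (Fin n)).card : ℕ∞) := by
  classical
  have hfa : AnalyticAt ℂ f s := by
    refine AnalyticAt.congr ?_ hf.symm
    refine AnalyticAt.mul ?_ hg
    exact Finset.analyticAt_fun_prod _ fun i _ => analyticAt_id.sub analyticAt_const
  rw [hfa.analyticOrderAt_eq_natCast]
  refine ⟨fun w => (∏ i ∈ univ.filter (fun i => ¬ z i = s), (w - z i)) * g w, ?_, ?_, ?_⟩
  · refine AnalyticAt.mul ?_ hg
    exact Finset.analyticAt_fun_prod _ fun i _ => analyticAt_id.sub analyticAt_const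
  · refine mul_ne_zero (Finset.prod_ne_zero_iff.2 fun i hi => ?_) hg0
    rw [sub_ne_zero]
    exact fun h => (Finset.mem_filter.1 hi).2 h.symm
  · filter_upwards [hf] with w hw
    rw [hw, smul_eq_mul, ← mul_assoc]
    congr 1
    rw [← Finset.prod_filter_mul_prod_filter_not univ (fun i => z i = s)]
    congr 1
    rw [Finset.prod_congr rfl (g := fun _ => w - s) (fun i hi => by rw [(Finset.mem_filter.1 hi).2]),
      Finset.prod_const]

/-- the prime sum is a power sum over the zeros, up to a small error -/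
theorem primeSum_zeros : ∃ C T1 : ℝ, 0 < C ∧ 100 ≤ T1 ∧ ∀ t ≥ T1,
    ∃ (n : ℕ) (z : Fin n → ℂ), (n : ℝ) ≤ C * Real.log t ∧
      (∀ i, z i ∈ closedBall (pt 10 t) (97 / 10)) ∧
      (∀ s ∈ closedBall (pt 10 t) (97 / 10), analyticOrderAt riemannZeta s =
        (({i | z i = s} : Finset (Fin n)).card : ℕ∞)) ∧
      ∀ k : ℕ, |‖primeSum k t‖ - ‖∑ i, ((pt (3 / 2) t - z i)⁻¹) ^ (k + 1)‖| ≤
        C * Real.log t * (10 / 11) ^ k := by
  obtain ⟨C, T1, hC, hT1, h⟩ := local_zeta
  refine ⟨C, T1, hC, hT1, fun t ht => ?_⟩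
  obtain ⟨n, z, g, hn, hz, hg, hfac, hg0, hld⟩ := h t ht
  refine ⟨n, z, hn, fun i => (hz i).1, ?_, ?_⟩
  · intro s hs
    refine order_fact ?_ (hg s (closedBall_subset_closedBall (by norm_num) hs)) (hg0 s hs)
    have hmem : s ∈ ball (pt 10 t) (98 / 10) := by
      rw [mem_closedBall] at hs
      rw [mem_ball]; linarith
    filter_upwards [isOpen_ball.mem_nhds hmem] with w hw
    exact hfac w (ball_subset_closedBall hw)
  · intro k
    set s0 := pt (3 / 2) t with hs0
    have hsub : closedBall s0 (11 / 10) ⊆ closedBall (pt 10 t) (96 / 10) := by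
      refine closedBall_subset_closedBall' ?_
      rw [dist_eq_norm]
      have e : s0 - pt 10 t = ((-17 / 2 : ℝ) : ℂ) := by
        apply Complex.ext
        · simp [hs0, pt]; norm_num
        · simp [hs0, pt]
      rw [e, Complex.norm_real, Real.norm_eq_abs]
      norm_num
    have hs0mem : s0 ∈ closedBall (pt 10 t) (96 / 10) := hsub (mem_closedBall_self (by norm_num))
    have hs0re : 1 < s0.re := by rw [hs0, pt_re]; norm_num
    have hzs0 : riemannZeta s0 ≠ 0 := riemannZeta_ne_zero_of_one_le_re hs0re.le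
    have hne : ∀ i, s0 ≠ z i := by
      intro i hi
      apply hzs0
      rw [hi]
      exact (hz i).2
    -- the local formula
    have hev : logDeriv riemannZeta =ᶠ[𝓝 s0] fun s => ∑ i, 1 / (s - z i) + logDeriv g s := by
      have hopen : IsOpen {w : ℂ | 1 < w.re} := isOpen_lt continuous_const Complex.continuous_re
      have hmem2 : s0 ∈ ball (pt 10 t) (97 / 10) := by
        rw [mem_closedBall] at hs0mem
        rw [mem_ball]; linarith
      filter_upwards [hopen.mem_nhds hs0re, isOpen_ball.mem_nhds hmem2] with w hw hw2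
      exact A.logDeriv_fact hg hfac (ball_subset_closedBall hw2)
        (riemannZeta_ne_zero_of_one_le_re (le_of_lt hw))
    have hgan : ∀ s ∈ closedBall (pt 10 t) (96 / 10), AnalyticAt ℂ (logDeriv g) s := by
      intro s hs
      have h1 := hg s (closedBall_subset_closedBall (by norm_num) hs)
      have h2 := hg0 s (closedBall_subset_closedBall (by norm_num) hs)
      exact h1.deriv.div h1 h2
    have hsum : iteratedDeriv k (logDeriv riemannZeta) s0 =
        (-1) ^ k * k.factorial * ∑ i, ((s0 - z i)⁻¹) ^ (k + 1) + iteratedDeriv k (logDeriv g) s0 := by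
      rw [hev.iteratedDeriv_eq]
      have hc : ∀ i ∈ (univ : Finset (Fin n)), ContDiffAt ℂ k (fun s => 1 / (s - z i)) s0 := by
        intro i _
        exact contDiffAt_const.div (contDiffAt_id.sub contDiffAt_const) (sub_ne_zero.2 (hne i))
      have hc2 : ContDiffAt ℂ k (logDeriv g) s0 := (hgan s0 hs0mem).contDiffAt
      rw [iteratedDeriv_fun_add (ContDiffAt.sum hc) hc2, iteratedDeriv_fun_sum hc, Finset.mul_sum]
      congr 1
      exact Finset.sum_congr rfl fun i _ => iteratedDeriv_inv_sub (z i) k s0 (hne i)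
    have hcauchy : ‖iteratedDeriv k (logDeriv g) s0‖ ≤
        k.factorial * (C * Real.log t) / (11 / 10) ^ k := by
      refine Complex.norm_iteratedDeriv_le_of_forall_mem_sphere_norm_le k (by norm_num) ?_ ?_
      · refine DifferentiableOn.diffContOnCl ?_
        rw [closure_ball _ (by norm_num)]
        intro w hw
        exact (hgan w (hsub hw)).differentiableAt.differentiableWithinAt
      · intro w hw
        exact hld w (hsub (sphere_subset_closedBall hw))
    have hfact : (0 : ℝ) < k.factorial := by exact_mod_cast k.factorial_pos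
    have hfact' : ((k.factorial : ℝ) : ℂ) ≠ 0 := by exact_mod_cast hfact.ne'
    have hps : primeSum k t = -(∑ i, ((s0 - z i)⁻¹) ^ (k + 1)) +
        (-1) ^ (k + 1) * iteratedDeriv k (logDeriv g) s0 / k.factorial := by
      rw [primeSum, ← pt_eq, tsum_eq k (by rw [pt_re]; norm_num), ← hs0, hsum]
      have h4 : ((-1 : ℂ) ^ k) * (-1) ^ k = 1 := by
        rw [← mul_pow]; norm_num
      have h5 : ((k.factorial : ℕ) : ℂ) ≠ 0 := by exact_mod_cast hfact.ne'
      generalize ∑ i, ((s0 - z i)⁻¹) ^ (k + 1) = S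
      have e1 : (-1 : ℂ) ^ (k + 1) * ((-1) ^ k * k.factorial * S) / k.factorial = -S := by
        rw [pow_succ]
        have e2 : (-1 : ℂ) ^ k * -1 * ((-1) ^ k * k.factorial * S) =
            -(((-1) ^ k * (-1) ^ k) * (S * k.factorial)) := by ring
        rw [e2, h4, one_mul, neg_div, mul_div_cancel_right₀ _ h5]
      rw [mul_add, add_div, e1]
    have herr : ‖(-1 : ℂ) ^ (k + 1) * iteratedDeriv k (logDeriv g) s0 / k.factorial‖ ≤
        C * Real.log t * (10 / 11) ^ k := by
      rw [norm_div, norm_mul, norm_pow, norm_neg, norm_one, one_pow, one_mul,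
        Complex.norm_natCast, div_le_iff₀ hfact]
      refine hcauchy.trans (le_of_eq ?_)
      have : (10 / 11 : ℝ) ^ k = 1 / (11 / 10) ^ k := by
        rw [← one_div_pow]; norm_num
      rw [this]
      ring
    have h6 : ‖-(∑ i, ((s0 - z i)⁻¹) ^ (k + 1))‖ = ‖∑ i, ((s0 - z i)⁻¹) ^ (k + 1)‖ := norm_neg _
    rw [hps, ← h6]
    refine (abs_norm_sub_norm_le _ _).trans ?_
    rw [add_sub_cancel_left]
    exact herr

end Pool.Agent.ZP31
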