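import Pool.Agent.Lib.MP_af3d17_nt_h31.Align
import Pool.Agent.Lib.MP_af3d17_nt_h31.Zeros
import Pool.Agent.Lib.MP_af3d17_nt_h20.Upper

/-!
# MP_af3d17_nt: the local theorem in terms of an enumeration of the zeros
-/

set_option autoImplicit false

namespace Pool.Agent.ZP31

open Finset Complex Filter Topology Metric
open Pool.Agent.ZP
open Pool.Agent.ZP20 (primeSum)

/-- the indices of the zeros in the disc of radius `√(1 + h)` -/
noncomputable def near {n : ℕ} (z : Fin n → ℂ) (t h : ℝ) : Finset (Fin n) :=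
  univ.filter (fun i => ‖pt (3 / 2) t - z i‖ ^ 2 ≤ 1 + h)

lemma mem_near {n : ℕ} {z : Fin n → ℂ} {t h : ℝ} {i : Fin n} :
    i ∈ near z t h ↔ ‖pt (3 / 2) t - z i‖ ^ 2 ≤ 1 + h := by
  rw [near, mem_filter]
  exact ⟨fun h => h.2, fun h => ⟨mem_univ _, h⟩⟩

/-- the enumeration used everywhere -/
structure Enum (C t : ℝ) {n : ℕ} (z : Fin n → ℂ) : Prop where
  card : (n : ℝ) ≤ C * Real.log t
  mem : ∀ i, z i ∈ closedBall (pt 10 t) (97 / 10)
  order : ∀ s ∈ closedBall (pt 10 t) (97 / 10), analyticOrderAt riemannZeta s =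
    (({i | z i = s} : Finset (Fin n)).card : ℕ∞)
  sum : ∀ k : ℕ, |‖primeSum k t‖ - ‖∑ i, ((pt (3 / 2) t - z i)⁻¹) ^ (k + 1)‖| ≤
    C * Real.log t * (10 / 11) ^ k

lemma Enum.zeta {C t : ℝ} (ht : 100 ≤ t) {n : ℕ} {z : Fin n → ℂ} (h : Enum C t z) (i : Fin n) :
    riemannZeta (z i) = 0 := by
  by_contra hcon
  have h1 := h.order _ (h.mem i)
  obtain ⟨h3, h4, h5, h6⟩ := mem_disc (h.mem i)
  have h2 : analyticOrderAt riemannZeta (z i) = 0 := by
    refine AnalyticAt.analyticOrderAt_eq_zero ?_ |>.2 hcon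
    exact zeta_analyticAt (by linarith)
  rw [h2] at h1
  have h7 : ({j | z j = z i} : Finset (Fin n)).card = 0 := by exact_mod_cast h1.symm
  rw [Finset.card_eq_zero] at h7
  have h8 : i ∈ ({j | z j = z i} : Finset (Fin n)) := by
    rw [mem_filter]; exact ⟨mem_univ _, rfl⟩
  rw [h7] at h8
  exact absurd h8 (notMem_empty _)

lemma Enum.sub_ne {C t : ℝ} (ht : 100 ≤ t) {n : ℕ} {z : Fin n → ℂ} (h : Enum C t z) (i : Fin n) :
    pt (3 / 2) t - z i ≠ 0 := by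
  intro h0
  rw [sub_eq_zero] at h0
  have h1 := h.zeta ht i
  rw [← h0] at h1
  exact riemannZeta_ne_zero_of_one_le_re (by rw [pt_re]; norm_num) h1

/-- a zero in the open unit disc makes the prime sums unbounded -/
lemma unbounded {C t : ℝ} (hC : 0 < C) (ht : 100 ≤ t) {n : ℕ} {z : Fin n → ℂ} (h : Enum C t z)
    {i : Fin n} (hi : ‖pt (3 / 2) t - z i‖ < 1) (c L : ℝ) :
    ∃ k : ℕ, t ^ c ≤ k ∧ L < ‖primeSum k t‖ := by
  by_contra hcon
  push Not at hcon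
  have hlog : 0 ≤ Real.log t := Real.log_nonneg (by linarith)
  have hS : ∀ j ≥ ⌈t ^ c⌉₊ + 1, ‖∑ i, ((pt (3 / 2) t - z i)⁻¹) ^ j‖ ≤ L + C * Real.log t := by
    intro j hj
    obtain ⟨k, rfl⟩ : ∃ k, j = k + 1 := ⟨j - 1, by omega⟩
    have h1 : t ^ c ≤ k := (Nat.le_ceil _).trans (by exact_mod_cast (by omega : ⌈t ^ c⌉₊ ≤ k))
    have h2 := hcon k h1
    have h3 := (abs_le.1 (h.sum k)).1
    have h4 : C * Real.log t * (10 / 11 : ℝ) ^ k ≤ C * Real.log t * 1 :=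
      mul_le_mul_of_nonneg_left (pow_le_one₀ (by norm_num) (by norm_num)) (by positivity)
    linarith
  have h5 := ZP20.norm_le_one_of_bounded hS i
  rw [norm_inv] at h5
  have h6 : 0 < ‖pt (3 / 2) t - z i‖ := norm_pos_iff.2 (h.sub_ne ht i)
  exact absurd h5 (not_le.2 ((one_lt_inv₀ h6).2 hi))

lemma norm_inv_le {t : ℝ} {n : ℕ} {z : Fin n → ℂ}
    (h1 : ∀ i, 1 ≤ ‖pt (3 / 2) t - z i‖) (i : Fin n) : ‖(pt (3 / 2) t - z i)⁻¹‖ ≤ 1 := by
  rw [norm_inv]
  exact inv_le_one_of_one_le₀ (h1 i)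

/-- the terms of the other zeros -/
lemma far {t x h : ℝ} (hx : 0 < x) {z : ℂ} (hz : 1 + h < ‖pt (3 / 2) t - z‖ ^ 2)
    (h0 : 0 ≤ h) {k : ℕ} (hk : x ^ 2 ≤ k * h) :
    ‖((pt (3 / 2) t - z)⁻¹) ^ (k + 1)‖ ≤ 1 / x := by
  obtain ⟨r, hr⟩ : ∃ r : ℝ, r = ‖pt (3 / 2) t - z‖ := ⟨_, rfl⟩
  have hr0 : 0 ≤ r := by rw [hr]; exact norm_nonneg _
  rw [← hr] at hz
  have h1 : x ^ 2 ≤ (r ^ 2) ^ (k + 1) := by
    have h2 := one_add_mul_le_pow (a := h) (by linarith) (k + 1)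
    have h3 : (1 + h) ^ (k + 1) ≤ (r ^ 2) ^ (k + 1) := pow_le_pow_left₀ (by linarith) hz.le _
    push_cast at h2
    linarith
  have h2 : x ≤ r ^ (k + 1) := by
    have e : (r ^ 2) ^ (k + 1) = (r ^ (k + 1)) ^ 2 := by rw [← pow_mul, ← pow_mul, mul_comm]
    rw [e] at h1
    exact (abs_le_of_sq_le_sq' h1 (by positivity)).2
  rw [norm_pow, norm_inv, ← hr, inv_pow, one_div]
  exact inv_anti₀ hx h2

/-- upper bound -/
lemma upper {C c ε δ : ℝ} (hC : 0 < C) (hε : 0 < ε) (hc : ε < c) (hδ : 0 < δ) :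
    ∀ᶠ t : ℝ in atTop, ∀ (n : ℕ) (z : Fin n → ℂ), Enum C t z →
      (∀ i, 1 ≤ ‖pt (3 / 2) t - z i‖) → ∀ k : ℕ, t ^ c ≤ k →
        ‖primeSum k t‖ ≤ (near z t (t ^ (-c + ε))).card + δ := by
  have h1 : Tendsto (fun t : ℝ => C * (Real.log t / t ^ (ε / 2)) + C * 10 * (Real.log t / t ^ c))
      atTop (𝓝 (C * 0 + C * 10 * 0)) :=
    ((ZP20.tendsto_log_div (by linarith)).const_mul C).add
      ((ZP20.tendsto_log_div (by linarith)).const_mul (C * 10))
  rw [mul_zero, mul_zero, add_zero] at h1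
  filter_upwards [h1.eventually (gt_mem_nhds hδ), eventually_ge_atTop 100] with t ht1 ht2
  intro n z hE h1 k hk
  have ht0 : 0 < t := by linarith
  have hlog : 0 ≤ Real.log t := Real.log_nonneg (by linarith)
  have htc : 0 < t ^ c := by positivity
  have herr : C * Real.log t * (10 / 11) ^ k ≤ C * 10 * (Real.log t / t ^ c) := by
    have h3 : C * Real.log t * (10 / 11) ^ k ≤ C * Real.log t * (10 / t ^ c) :=
      mul_le_mul_of_nonneg_left (ZP20.geom_small htc hk) (by positivity)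
    refine h3.trans (le_of_eq ?_)
    ring
  have hx0 : (0 : ℝ) < t ^ (ε / 2) := by positivity
  have hfar : ∀ i ∉ near z t (t ^ (-c + ε)), ‖((pt (3 / 2) t - z i)⁻¹) ^ (k + 1)‖ ≤
      1 / t ^ (ε / 2) := by
    intro i hi
    rw [mem_near, not_le] at hi
    refine far hx0 hi (by positivity) ?_
    have e1 : (t ^ (ε / 2)) ^ 2 = t ^ c * t ^ (-c + ε) := by
      rw [← Real.rpow_natCast, ← Real.rpow_mul ht0.le, ← Real.rpow_add ht0]
      congr 1
      push_cast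
      ring
    rw [e1]
    exact mul_le_mul_of_nonneg_right hk (by positivity)
  have hsum : ‖∑ i, ((pt (3 / 2) t - z i)⁻¹) ^ (k + 1)‖ ≤
      (near z t (t ^ (-c + ε))).card + C * (Real.log t / t ^ (ε / 2)) := by
    refine (norm_sum_le _ _).trans ?_
    rw [← Finset.sum_filter_add_sum_filter_not univ (fun i => i ∈ near z t (t ^ (-c + ε)))]
    refine add_le_add ?_ ?_
    · have e2 : univ.filter (fun i => i ∈ near z t (t ^ (-c + ε))) = near z t (t ^ (-c + ε)) := by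
        ext i; simp
      rw [e2]
      refine (Finset.sum_le_card_nsmul _ _ 1 fun i _ => ?_).trans (le_of_eq ?_)
      · rw [norm_pow]
        exact pow_le_one₀ (norm_nonneg _) (norm_inv_le h1 i)
      · rw [nsmul_eq_mul, mul_one]
    · refine (Finset.sum_le_card_nsmul _ _ (1 / t ^ (ε / 2)) fun i hi => ?_).trans ?_
      · exact hfar i (mem_filter.1 hi).2
      · rw [nsmul_eq_mul]
        have h3 : ((univ.filter (fun i => i ∉ near z t (t ^ (-c + ε)))).card : ℝ) ≤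
            C * Real.log t := by
          refine le_trans ?_ hE.card
          have h4 := Finset.card_filter_le univ (fun i => i ∉ near z t (t ^ (-c + ε)))
          rw [card_univ, Fintype.card_fin] at h4
          exact_mod_cast h4
        have h4 := mul_le_mul_of_nonneg_right h3 (by positivity : 0 ≤ 1 / t ^ (ε / 2))
        refine h4.trans (le_of_eq ?_)
        ring
  have h3 := (abs_le.1 (hE.sum k)).2
  linarith

/-- lower bound -/
lemma lower {C c ε δ : ℝ} (hC : 0 < C) (hε : 0 < ε) (hc : ε < c) (hδ : 0 < δ) (K : ℕ) :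
    ∀ᶠ t : ℝ in atTop, ∀ (n : ℕ) (z : Fin n → ℂ), Enum C t z →
      (∀ i, 1 ≤ ‖pt (3 / 2) t - z i‖) → ∃ k : ℕ, t ^ c ≤ k ∧
        (min (near z t (t ^ (-c - ε))).card K : ℕ) - δ < ‖primeSum k t‖ := by
  obtain ⟨e, he⟩ : ∃ e : ℝ, e = ε / (8 * (K + 1)) := ⟨_, rfl⟩
  have hK0 : (0 : ℝ) ≤ K := Nat.cast_nonneg K
  have he0 : 0 < e := by rw [he]; positivity
  have heK : 8 * (K + 1) * e = ε := by rw [he]; field_simp
  have hlim : Tendsto (fun t : ℝ => K * (1 - 1 / (1 + 17 * (1 / t ^ e)) ^ 2) +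
      C * (Real.log t / t ^ e) + C * 10 * (Real.log t / t ^ c)) atTop
      (𝓝 (K * (1 - 1 / (1 + 17 * 0) ^ 2) + C * 0 + C * 10 * 0)) := by
    have h1 : Tendsto (fun t : ℝ => 1 / t ^ e) atTop (𝓝 0) := by
      have := tendsto_rpow_neg_atTop he0
      refine this.congr' ?_
      filter_upwards [eventually_gt_atTop 0] with t ht
      rw [Real.rpow_neg ht.le, one_div]
    refine Tendsto.add (Tendsto.add (Tendsto.const_mul _ (Tendsto.const_sub _
      (Tendsto.div tendsto_const_nhds (((h1.const_mul 17).const_add 1).pow 2) (by norm_num)))) ?_) ?_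
    · exact (ZP20.tendsto_log_div he0).const_mul C
    · exact (ZP20.tendsto_log_div (by linarith)).const_mul (C * 10)
  have e0 : (K * (1 - 1 / (1 + 17 * 0) ^ 2) + C * 0 + C * 10 * 0 : ℝ) = 0 := by norm_num
  rw [e0] at hlim
  have hbig : ∀ᶠ t : ℝ in atTop, 2 ≤ t ^ (4 * e) :=
    (tendsto_rpow_atTop (by linarith)).eventually_ge_atTop 2
  filter_upwards [hlim.eventually (gt_mem_nhds hδ), eventually_ge_atTop 100, hbig]
    with t ht1 ht2 ht3
  intro n z hE h1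
  have ht0 : 0 < t := by linarith
  have ht1' : 1 ≤ t := by linarith
  have hlog : 0 ≤ Real.log t := Real.log_nonneg (by linarith)
  have htc : 1 ≤ t ^ c := Real.one_le_rpow ht1' (by linarith)
  by_contra hcon
  push Not at hcon
  obtain ⟨K', hK'⟩ : ∃ K' : ℕ, K' = min (near z t (t ^ (-c - ε))).card K := ⟨_, rfl⟩
  rw [← hK'] at hcon
  obtain ⟨S, hS1, hS2⟩ := Finset.exists_subset_card_eq
    (show K' ≤ (near z t (t ^ (-c - ε))).card by rw [hK']; exact min_le_left _ _)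
  have hK'K : K' ≤ K := by rw [hK']; exact min_le_right _ _
  -- the parameters
  obtain ⟨Q, hQ⟩ : ∃ Q : ℕ, Q = ⌊t ^ (4 * e)⌋₊ := ⟨_, rfl⟩
  have hQ1 : (Q : ℝ) ≤ t ^ (4 * e) := by rw [hQ]; exact Nat.floor_le (by positivity)
  have hQ2 : t ^ (4 * e) / 2 ≤ Q := by
    have := Nat.lt_floor_add_one (t ^ (4 * e))
    rw [← hQ] at this
    linarith
  have hQ3 : (1 : ℝ) ≤ Q := by linarith
  have hQ4 : 1 ≤ Q := by exact_mod_cast hQ3
  obtain ⟨m, hm1, hm2, hm3⟩ := align (ι := S) (w := fun i => (pt (3 / 2) t - z i)⁻¹)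
    (h := t ^ (-c - ε)) (by positivity)
    (Real.rpow_le_one_of_one_le_of_nonpos ht1' (by linarith))
    (fun i => norm_inv_le h1 i) (fun i => by
      have h2 := mem_near.1 (hS1 i.2)
      have h3 : 0 < ‖pt (3 / 2) t - z i‖ ^ 2 := by
        have := h1 i
        positivity
      rw [norm_inv, inv_pow, ← div_eq_mul_inv, le_div_iff₀ h3, one_mul]
      exact h2) (m0 := ⌈t ^ c⌉₊ + 1) hQ4
  rw [Fintype.card_coe, hS2] at hm2
  have hm0 : (⌈t ^ c⌉₊ : ℝ) + 1 ≤ 3 * t ^ c := by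
    have := Nat.ceil_lt_add_one (show 0 ≤ t ^ c by positivity)
    linarith
  have hmR : (m : ℝ) ≤ 3 * t ^ c * t ^ (ε / 2) := by
    have h2 : (m : ℝ) ≤ (⌈t ^ c⌉₊ + 1) * (Q : ℝ) ^ K' := by exact_mod_cast hm2
    have h3 : (Q : ℝ) ^ K' ≤ t ^ (ε / 2) := by
      calc (Q : ℝ) ^ K' ≤ (Q : ℝ) ^ K := pow_le_pow_right₀ hQ3 hK'K
        _ ≤ (t ^ (4 * e)) ^ K := pow_le_pow_left₀ (by linarith) hQ1 K
        _ = t ^ (4 * e * K) := by rw [← Real.rpow_natCast, ← Real.rpow_mul ht0.le]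
        _ ≤ t ^ (ε / 2) := by
          apply Real.rpow_le_rpow_of_exponent_le ht1'
          nlinarith
    exact h2.trans (mul_le_mul hm0 h3 (by positivity) (by positivity))
  have hmh : (m : ℝ) * t ^ (-c - ε) ≤ 3 * (1 / t ^ (4 * e)) := by
    have h2 := mul_le_mul_of_nonneg_right hmR (show 0 ≤ t ^ (-c - ε) by positivity)
    have e1 : 3 * t ^ c * t ^ (ε / 2) * t ^ (-c - ε) = 3 * t ^ (-(ε / 2)) := by
      rw [mul_assoc, mul_assoc, ← Real.rpow_add ht0, ← Real.rpow_add ht0]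
      congr 2
      ring
    rw [e1] at h2
    have h3 : t ^ (-(ε / 2)) ≤ t ^ (-(4 * e)) := by
      apply Real.rpow_le_rpow_of_exponent_le ht1'
      nlinarith
    rw [Real.rpow_neg ht0.le (4 * e), ← one_div] at h3
    linarith
  obtain ⟨H, hH⟩ : ∃ H : ℝ, H = t ^ e := ⟨_, rfl⟩
  have hH1 : 1 ≤ H := by rw [hH]; exact Real.one_le_rpow ht1' he0.le
  have hH0 : 0 < H := by linarith
  obtain ⟨η, hη⟩ : ∃ η : ℝ, η = 17 * (1 / t ^ (4 * e)) := ⟨_, rfl⟩
  have hη1 : ∀ i ∈ S, ‖1 - ((pt (3 / 2) t - z i)⁻¹) ^ m‖ ≤ η := by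
    intro i hi
    refine (hm3 ⟨i, hi⟩).trans ?_
    have h2 : 7 / (Q : ℝ) ≤ 14 * (1 / t ^ (4 * e)) := by
      rw [div_le_iff₀ (by linarith)]
      have h3 : 14 * (1 / t ^ (4 * e)) * (t ^ (4 * e) / 2) ≤ 14 * (1 / t ^ (4 * e)) * Q :=
        mul_le_mul_of_nonneg_left hQ2 (by positivity)
      refine le_trans (le_of_eq ?_) h3
      field_simp
      norm_num
    rw [hη]
    linarith
  obtain ⟨L, hL⟩ : ∃ L : ℝ, L = (K' : ℝ) - δ + C * 10 * (Real.log t / t ^ c) := ⟨_, rfl⟩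
  have hSj : ∀ j ≥ 1, ‖∑ i, (((pt (3 / 2) t - z i)⁻¹) ^ m) ^ j‖ ≤ L := by
    intro j hj
    have hmj : ⌈t ^ c⌉₊ + 1 ≤ m * j := hm1.trans (Nat.le_mul_of_pos_right _ hj)
    obtain ⟨k, hk⟩ : ∃ k, m * j = k + 1 := ⟨m * j - 1, by omega⟩
    have h2 : t ^ c ≤ k := (Nat.le_ceil _).trans (by exact_mod_cast (by omega : ⌈t ^ c⌉₊ ≤ k))
    have h3 := hcon k h2
    have h4 := (abs_le.1 (hE.sum k)).1
    have h5 : C * Real.log t * (10 / 11) ^ k ≤ C * 10 * (Real.log t / t ^ c) := by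
      have h3 : C * Real.log t * (10 / 11) ^ k ≤ C * Real.log t * (10 / t ^ c) :=
        mul_le_mul_of_nonneg_left (ZP20.geom_small (by linarith) h2) (by positivity)
      refine h3.trans (le_of_eq ?_)
      ring
    have e2 : ∑ i, (((pt (3 / 2) t - z i)⁻¹) ^ m) ^ j = ∑ i, ((pt (3 / 2) t - z i)⁻¹) ^ (k + 1) := by
      refine Finset.sum_congr rfl fun i _ => ?_
      rw [← pow_mul, hk]
    rw [e2, hL]
    linarith
  have hL0 : 0 ≤ L := (norm_nonneg _).trans (hSj 1 le_rfl)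
  have h2 := many_points (v := fun i => ((pt (3 / 2) t - z i)⁻¹) ^ m)
    (fun i => by rw [norm_pow]; exact pow_le_one₀ (norm_nonneg _) (norm_inv_le h1 i)) S
    hη1 hL0 hSj hH1
  rw [hS2, Nat.cast_one, mul_one] at h2
  -- numerical consequences
  have hHη : H * η ≤ 17 * (1 / t ^ e) := by
    have e3 : t ^ (4 * e) = H * t ^ (3 * e) := by
      rw [hH, ← Real.rpow_add ht0]; congr 1; ring
    have h3 : t ^ e ≤ t ^ (3 * e) := Real.rpow_le_rpow_of_exponent_le ht1' (by linarith)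
    have h4 : H * η = 17 * (1 / t ^ (3 * e)) := by
      rw [hη, e3]; field_simp
    rw [h4]
    have := one_div_le_one_div_of_le (show 0 < t ^ e by positivity) h3
    linarith
  have hη0 : 0 ≤ η := by rw [hη]; positivity
  have h3 : (K' : ℝ) * (1 / (1 + 17 * (1 / t ^ e)) ^ 2) * H ≤ K' * (H / (1 + H * η) ^ 2) := by
    have h4 : (1 / (1 + 17 * (1 / t ^ e)) ^ 2) ≤ 1 / (1 + H * η) ^ 2 := by
      apply one_div_le_one_div_of_le (by positivity)
      exact pow_le_pow_left₀ (by positivity) (by linarith) 2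
    have h5 : (1 / (1 + 17 * (1 / t ^ e)) ^ 2) * H ≤ H / (1 + H * η) ^ 2 := by
      rw [div_eq_mul_one_div H, mul_comm H]
      exact mul_le_mul_of_nonneg_right h4 hH0.le
    rw [mul_assoc]
    exact mul_le_mul_of_nonneg_left h5 (Nat.cast_nonneg _)
  have h4 : (n : ℝ) ≤ C * (Real.log t / t ^ e) * H := by
    refine hE.card.trans (le_of_eq ?_)
    rw [← hH]
    field_simp
  have h5 : ((K' : ℝ) * (1 / (1 + 17 * (1 / t ^ e)) ^ 2) - C * (Real.log t / t ^ e) - L) * H ≤ 0 := by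
    linarith
  have h6 : (K' : ℝ) * (1 / (1 + 17 * (1 / t ^ e)) ^ 2) - C * (Real.log t / t ^ e) - L ≤ 0 := by
    by_contra hneg
    push Not at hneg
    exact absurd h5 (not_le.2 (mul_pos hneg hH0))
  have h7 : (0 : ℝ) ≤ 1 - 1 / (1 + 17 * (1 / t ^ e)) ^ 2 := by
    rw [sub_nonneg, div_le_one (by positivity)]
    have : (1 : ℝ) ≤ 1 + 17 * (1 / t ^ e) := by
      have : 0 ≤ 17 * (1 / t ^ e) := by positivity
      linarith
    exact one_le_pow₀ this
  have h8 : (K' : ℝ) * (1 - 1 / (1 + 17 * (1 / t ^ e)) ^ 2) ≤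
      K * (1 - 1 / (1 + 17 * (1 / t ^ e)) ^ 2) :=
    mul_le_mul_of_nonneg_right (by exact_mod_cast hK'K) h7
  rw [hL] at h6
  have e9 : (K' : ℝ) * (1 - 1 / (1 + 17 * (1 / t ^ e)) ^ 2) =
    K' - K' * (1 / (1 + 17 * (1 / t ^ e)) ^ 2) := by ring
  linarith

end Pool.Agent.ZP31
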