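import Pool.Agent.Lib.MP_af3d17_nt_h31.Exponents

/-!
# MP_af3d17_nt: the level function of the prime sums
-/

set_option autoImplicit false

namespace Pool.Agent.ZP31

open Finset Complex Filter Topology Metric
open Pool.Agent.ZP
open Pool.Agent.ZP20 (primeSum)

variable {γ : ℕ → ℝ}

/-- `sup_{k ≥ t^c} |D_k(t)|` -/
noncomputable def peak (c t : ℝ) : EReal :=
  ⨆ k : ℕ, ⨆ _ : t ^ c ≤ (k : ℝ), ((‖primeSum k t‖ : ℝ) : EReal)

/-- `limsup` of the peaks -/
noncomputable def level (c : ℝ) : EReal := limsup (peak c) atTop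

/-- the number of zeros in the disc -/
noncomputable def numZeros (t h : ℝ) : EReal := (((zerosIn t h).encard : ENNReal) : EReal)

lemma cast_nat (n : ℕ) : ((((n : ℕ) : ℕ∞) : ENNReal) : EReal) = ((n : ℝ) : EReal) := by
  simp only [ENat.toENNReal_coe]
  rfl

lemma le_peak {c t : ℝ} {k : ℕ} (hk : t ^ c ≤ k) : ((‖primeSum k t‖ : ℝ) : EReal) ≤ peak c t :=
  le_iSup_of_le k (le_iSup_of_le hk le_rfl)

lemma numZeros_eq {C t : ℝ} (ht : 100 ≤ t) {n : ℕ} {z : Fin n → ℂ} (hE : Enum C t z) {h : ℝ}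
    (h1 : h ≤ 1 / 5) : numZeros t h = (((near z t h).card : ℝ) : EReal) := by
  rw [numZeros, encard_zerosIn ht hE h1, cast_nat]

/-- a zero in the open unit disc -/
lemma peak_eq_top {C t : ℝ} (hC : 0 < C) (ht : 100 ≤ t) {n : ℕ} {z : Fin n → ℂ} (hE : Enum C t z)
    {ρ : ℂ} (h1 : riemannZeta ρ = 0) (h2 : ‖ρ - (3 / 2 + t * I)‖ < 1) (c : ℝ) : peak c t = ⊤ := by
  have h3 : ρ ∈ closedBall (pt 10 t) (96 / 10) := by
    refine mem_big_disc (h := 0) (by norm_num) ?_
    rw [add_zero]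
    exact pow_le_one₀ (norm_nonneg _) h2.le
  have h3' : ρ ∈ closedBall (pt 10 t) (97 / 10) := closedBall_subset_closedBall (by norm_num) h3
  have h4 := hE.order ρ h3'
  have h5 : analyticOrderAt riemannZeta ρ ≠ 0 := by
    obtain ⟨h6, h7, h8, h9⟩ := mem_disc h3'
    exact (zeta_analyticAt (by linarith)).analyticOrderAt_ne_zero.2 h1
  rw [h4] at h5
  have h6 : 0 < ({i | z i = ρ} : Finset (Fin n)).card := by
    rw [Nat.pos_iff_ne_zero]
    intro h0
    rw [h0] at h5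
    exact h5 rfl
  obtain ⟨i, hi⟩ := Finset.card_pos.1 h6
  have hi' : z i = ρ := (mem_filter.1 hi).2
  rw [EReal.eq_top_iff_forall_lt]
  intro y
  obtain ⟨k, hk, hk'⟩ := unbounded hC ht hE (i := i)
    (by rw [hi', norm_sub_rev, ZP20.pt_eq]; exact h2) c y
  refine lt_of_lt_of_le ?_ (le_peak hk)
  exact_mod_cast hk'

/-- the local theorem -/
theorem local_theorem {c ε δ : ℝ} (hε : 0 < ε) (hc : ε < c) (hδ : 0 < δ) (K : ℕ) :
    ∀ᶠ t : ℝ in atTop,
      ((∃ ρ, riemannZeta ρ = 0 ∧ ‖ρ - (3 / 2 + t * I)‖ < 1) → peak c t = ⊤) ∧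
      ((∀ ρ, riemannZeta ρ = 0 → 1 ≤ ‖ρ - (3 / 2 + t * I)‖) →
        min (numZeros t (t ^ (-c - ε))) (K : EReal) - (δ : EReal) ≤ peak c t ∧
        peak c t ≤ numZeros t (t ^ (-c + ε)) + (δ : EReal)) := by
  obtain ⟨C, T1, hC, hT1, hz⟩ := primeSum_zeros
  have hs1 : ∀ᶠ t : ℝ in atTop, t ^ (-c + ε) ≤ 1 / 5 := by
    have := tendsto_rpow_neg_atTop (y := c - ε) (by linarith)
    rw [neg_sub] at this
    refine (this.eventually (gt_mem_nhds (by norm_num : (0 : ℝ) < 1 / 5))).mono fun t ht => ?_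
    rw [neg_add_eq_sub]
    exact ht.le
  filter_upwards [upper hC hε hc hδ, lower hC hε hc hδ K, eventually_ge_atTop T1, hs1]
    with t h1 h2 h3 h4
  have ht : 100 ≤ t := hT1.trans h3
  obtain ⟨n, z, h5, h6, h7, h8⟩ := hz t h3
  have hE : Enum C t z := ⟨h5, h6, h7, h8⟩
  have h4' : t ^ (-c - ε) ≤ 1 / 5 := by
    refine le_trans ?_ h4
    exact Real.rpow_le_rpow_of_exponent_le (by linarith) (by linarith)
  refine ⟨fun ⟨ρ, h9, h10⟩ => peak_eq_top hC ht hE h9 h10 c, fun h9 => ?_⟩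
  have h10 : ∀ i, 1 ≤ ‖pt (3 / 2) t - z i‖ := by
    intro i
    rw [norm_sub_rev, ZP20.pt_eq]
    exact h9 _ (hE.zeta ht i)
  rw [numZeros_eq ht hE h4, numZeros_eq ht hE h4']
  constructor
  · obtain ⟨k, hk, hk'⟩ := h2 n z hE h10
    refine le_trans ?_ (le_peak hk)
    have e : min (((near z t (t ^ (-c - ε))).card : ℝ) : EReal) (K : EReal) =
        (((min (near z t (t ^ (-c - ε))).card K : ℕ) : ℝ) : EReal) := by
      rw [show (K : EReal) = ((K : ℝ) : EReal) from rfl,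
        ← (EReal.coe_strictMono.monotone.map_min), Nat.cast_min]
    rw [e, ← EReal.coe_sub]
    exact_mod_cast hk'.le
  · refine iSup_le fun k => iSup_le fun hk => ?_
    rw [← EReal.coe_add]
    exact_mod_cast h1 n z hE h10 k hk

/-- infinitely many zeros off the line -/
theorem level_eq_top (h : ∀ T : ℝ, ∃ ρ, IsUpperZero ρ ∧ T < ρ.im ∧ ρ.re ≠ 1 / 2) (c : ℝ) :
    level c = ⊤ := by
  obtain ⟨C, T1, hC, hT1, hz⟩ := primeSum_zeros
  rw [eq_top_iff]
  refine le_limsup_of_frequently_le' ?_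
  rw [frequently_atTop]
  intro T
  obtain ⟨ρ, h1, h2, h3⟩ : ∃ ρ, IsUpperZero ρ ∧ max T T1 < ρ.im ∧ 1 / 2 < ρ.re := by
    obtain ⟨ρ, h1, h2, h3⟩ := h (max T T1)
    rcases lt_or_gt_of_ne h3 with h4 | h4
    · obtain ⟨h5, h6⟩ := mirror h1
      refine ⟨_, h5, by rw [h6]; exact h2, ?_⟩
      simp only [Complex.sub_re, Complex.one_re, Complex.conj_re]
      linarith
    · exact ⟨ρ, h1, h2, h4⟩
  refine ⟨ρ.im, ((le_max_left _ _).trans_lt h2).le, ?_⟩
  obtain ⟨n, z, h5, h6, h7, h8⟩ := hz ρ.im ((le_max_right _ _).trans_lt h2).le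
  have hE : Enum C ρ.im z := ⟨h5, h6, h7, h8⟩
  rw [peak_eq_top hC (hT1.trans ((le_max_right _ _).trans_lt h2).le) hE h1.1 ?_ c]
  have e : ρ - (3 / 2 + ρ.im * I) = ((ρ.re - 3 / 2 : ℝ) : ℂ) := by
    apply Complex.ext
    · simp
    · simp
  rw [e, Complex.norm_real, Real.norm_eq_abs, abs_lt]
  have := h1.2.2.1
  constructor <;> linarith

lemma two_alpha_lt {x : EReal} (hx : x ≤ 0) {c : ℝ} (h : -(2 * x) < (c : EReal)) :
    ((-c / 2 : ℝ) : EReal) < x := by
  have e2 : (2 : EReal) = ((2 : ℝ) : EReal) := rfl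
  induction x with
  | bot => rw [EReal.mul_bot_of_pos (by norm_num), EReal.neg_bot] at h; exact absurd h not_top_lt
  | top => exact EReal.coe_lt_top _
  | coe x =>
    rw [e2, ← EReal.coe_mul, ← EReal.coe_neg, EReal.coe_lt_coe_iff] at h
    exact EReal.coe_lt_coe_iff.2 (by linarith)

lemma lt_two_alpha {x : EReal} (hx : x ≤ 0) {c : ℝ} (h : (c : EReal) < -(2 * x)) :
    x < ((-c / 2 : ℝ) : EReal) := by
  have e2 : (2 : EReal) = ((2 : ℝ) : EReal) := rfl
  induction x with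
  | bot => exact EReal.bot_lt_coe _
  | top => exact absurd hx (by simp)
  | coe x =>
    rw [e2, ← EReal.coe_mul, ← EReal.coe_neg, EReal.coe_lt_coe_iff] at h
    exact EReal.coe_lt_coe_iff.2 (by linarith)

lemma ereal_le_of_add {x : EReal} {y : ℝ} (h : ∀ δ : ℝ, 0 < δ → x ≤ ((y + δ : ℝ) : EReal)) :
    x ≤ (y : EReal) := by
  by_contra hcon
  obtain ⟨r, h1, h2⟩ := EReal.lt_iff_exists_real_btwn.1 (not_le.1 hcon)
  have h3 : y < r := by exact_mod_cast h1
  have h4 := h (r - y) (by linarith)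
  rw [add_sub_cancel] at h4
  exact absurd h4 (not_le.2 h2)

lemma ereal_ge_of_sub {x : EReal} {y : ℝ} (h : ∀ δ : ℝ, 0 < δ → ((y - δ : ℝ) : EReal) ≤ x) :
    (y : EReal) ≤ x := by
  by_contra hcon
  obtain ⟨r, h1, h2⟩ := EReal.lt_iff_exists_real_btwn.1 (not_le.1 hcon)
  have h3 : r < y := by exact_mod_cast h2
  have h4 := h (y - r) (by linarith)
  rw [sub_sub_cancel] at h4
  exact absurd h4 (not_le.2 h1)

/-- above the threshold -/
theorem level_le (hγ : IsOrdinateSeq γ) {T0 : ℝ} (h : OnLine T0) {k : ℕ} {c : ℝ}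
    (hα : -(2 * alpha γ k) < (c : EReal)) (hc : 0 < c) : level c ≤ ((k : ℝ) : EReal) := by
  have h1 := two_alpha_lt (alpha_le_zero hγ k) hα
  obtain ⟨a, h2, h3⟩ := EReal.lt_iff_exists_real_btwn.1 h1
  have h2' : -c / 2 < a := by exact_mod_cast h2
  have ha0 : a < 0 := by
    have : (a : EReal) < 0 := lt_of_lt_of_le h3 (alpha_le_zero hγ k)
    exact_mod_cast this
  obtain ⟨ε, hε⟩ : ∃ ε : ℝ, ε = (c + 2 * a) / 2 := ⟨_, rfl⟩
  have hε0 : 0 < ε := by rw [hε]; linarith
  have hεc : ε < c := by rw [hε]; linarith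
  obtain ⟨C, T1, hC, hT1, hz⟩ := primeSum_zeros
  refine ereal_le_of_add fun δ hδ => ?_
  have hs1 : ∀ᶠ t : ℝ in atTop, t ^ (-c + ε) ≤ 1 / 5 := by
    have := tendsto_rpow_neg_atTop (y := c - ε) (by linarith)
    rw [neg_sub] at this
    refine (this.eventually (gt_mem_nhds (by norm_num : (0 : ℝ) < 1 / 5))).mono fun t ht => ?_
    rw [neg_add_eq_sub]
    exact ht.le
  refine limsup_le_of_le (by isBoundedDefault) ?_
  filter_upwards [upper hC hε0 hεc hδ, few_indices hγ h (h' := -c + ε) h3 ha0 (by rw [hε]; linarith),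
    eventually_ge_atTop T1, hs1, eventually_gt_atTop (T0 + 10)] with t h4 h5 h6 h7 h8
  have ht : 100 ≤ t := hT1.trans h6
  obtain ⟨n, z, h9, h10, h11, h12⟩ := hz t h6
  have hE : Enum C t z := ⟨h9, h10, h11, h12⟩
  refine iSup_le fun j => iSup_le fun hj => ?_
  have h13 := h4 n z hE (one_le_of_line h ht h8 hE) j hj
  rw [← encard_line hγ h ht h8 h7, encard_zerosIn ht hE h7] at h5
  have h14 : (near z t (t ^ (-c + ε))).card ≤ k := by exact_mod_cast h5
  have h15 : ((near z t (t ^ (-c + ε))).card : ℝ) ≤ k := by exact_mod_cast h14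
  exact_mod_cast (by linarith : ‖primeSum j t‖ ≤ k + δ)

/-- below the threshold -/
theorem le_level (hγ : IsOrdinateSeq γ) {T0 : ℝ} (h : OnLine T0) {k : ℕ} {c : ℝ} (hc : 0 < c)
    (hα : (c : EReal) < -(2 * alpha γ k)) : (((k + 1 : ℕ) : ℝ) : EReal) ≤ level c := by
  have h1 := lt_two_alpha (alpha_le_zero hγ k) hα
  obtain ⟨b, h2, h3⟩ := EReal.lt_iff_exists_real_btwn.1 h1
  have h3' : b < -c / 2 := by exact_mod_cast h3
  obtain ⟨ε, hε⟩ : ∃ ε : ℝ, ε = min (-(2 * b) - c) c / 2 := ⟨_, rfl⟩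
  have hmin : 0 < min (-(2 * b) - c) c := lt_min (by linarith) hc
  have hε0 : 0 < ε := by rw [hε]; linarith
  have hεc : ε < c := by
    have := min_le_right (-(2 * b) - c) c
    rw [hε]; linarith
  have hεb : 2 * b ≤ -c - ε := by
    have := min_le_left (-(2 * b) - c) c
    rw [hε]; linarith
  obtain ⟨C, T1, hC, hT1, hz⟩ := primeSum_zeros
  refine ereal_ge_of_sub fun δ hδ => ?_
  have hs1 : ∀ᶠ t : ℝ in atTop, t ^ (-c + ε) ≤ 1 / 5 := by
    have := tendsto_rpow_neg_atTop (y := c - ε) (by linarith)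
    rw [neg_sub] at this
    refine (this.eventually (gt_mem_nhds (by norm_num : (0 : ℝ) < 1 / 5))).mono fun t ht => ?_
    rw [neg_add_eq_sub]
    exact ht.le
  refine le_limsup_of_frequently_le' ?_
  have hfr := (gap_upper hγ (by linarith) h2).and_eventually ((tendsto_gamma hγ).eventually
    ((lower hC hε0 hεc hδ (k + 1)).and ((eventually_ge_atTop T1).and
      (hs1.and (eventually_gt_atTop (T0 + 10))))))
  refine (tendsto_gamma hγ).frequently (hfr.mono ?_)
  rintro n ⟨h4, h5, h6, h7, h8⟩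
  have ht : 100 ≤ γ n := hT1.trans h6
  obtain ⟨N, z, h9, h10, h11, h12⟩ := hz (γ n) h6
  have hE : Enum C (γ n) z := ⟨h9, h10, h11, h12⟩
  have h7' : γ n ^ (-c - ε) ≤ 1 / 5 := by
    refine le_trans ?_ h7
    exact Real.rpow_le_rpow_of_exponent_le (by linarith) (by linarith)
  have h13 : (γ (n + k) - γ n) ^ 2 ≤ γ n ^ (-c - ε) := by
    have h14 : 0 ≤ γ (n + k) - γ n := sub_nonneg.2 (hγ.mono (Nat.le_add_right n k))
    calc (γ (n + k) - γ n) ^ 2 ≤ (γ n ^ b) ^ 2 := pow_le_pow_left₀ h14 h4 2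
      _ = γ n ^ (2 * b) := by
        rw [← Real.rpow_natCast, ← Real.rpow_mul (by linarith)]
        congr 1
        push_cast
        ring
      _ ≤ _ := Real.rpow_le_rpow_of_exponent_le (by linarith) hεb
  have h14 := many_indices hγ h13
  rw [← encard_line hγ h ht h8 h7', encard_zerosIn ht hE h7'] at h14
  have h15 : k + 1 ≤ (near z (γ n) (γ n ^ (-c - ε))).card := by exact_mod_cast h14
  obtain ⟨j, hj, hj'⟩ := h5 N z hE (one_le_of_line h ht h8 hE)
  rw [min_eq_right h15] at hj'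
  refine le_trans ?_ (le_peak hj)
  exact_mod_cast hj'.le

/-- the cluster exponents from the level function -/
theorem neg_two_alpha_eq (hγ : IsOrdinateSeq γ) {T0 : ℝ} (h : OnLine T0) {k : ℕ} :
    -(2 * alpha γ k) =
      sInf {x : EReal | ∃ c : ℝ, 0 < c ∧ x = (c : EReal) ∧ level c ≤ ((k : ℝ) : EReal)} := by
  have hE0 : (0 : EReal) ≤ -(2 * alpha γ k) := by
    rw [EReal.le_neg, neg_zero]
    exact mul_nonpos_of_nonneg_of_nonpos (by norm_num) (alpha_le_zero hγ k)
  refine le_antisymm ?_ ?_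
  · refine le_sInf ?_
    rintro x ⟨c, hc, rfl, hlev⟩
    by_contra hcon
    have h1 := (le_level hγ h hc (not_le.1 hcon)).trans hlev
    have h2 : ((k + 1 : ℕ) : ℝ) ≤ k := by exact_mod_cast h1
    push_cast at h2
    linarith
  · rw [← EReal.le_of_forall_lt_iff_le]
    intro c hc
    have hc0 : 0 < c := by
      have : (0 : EReal) < c := lt_of_le_of_lt hE0 hc
      exact_mod_cast this
    exact sInf_le ⟨c, hc0, rfl, level_le hγ h hc hc0⟩

lemma alpha_zero (γ : ℕ → ℝ) : alpha γ 0 = ⊥ := by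
  have h1 : gapExponent γ 0 = fun _ => ⊥ := by
    funext n
    rw [gapExponent, if_pos (by rw [add_zero])]
  rw [alpha, h1, liminf_const]

/-- the level function is a staircase -/
theorem level_eq (hγ : IsOrdinateSeq γ) {T0 : ℝ} (h : OnLine T0) {c : ℝ} (hc : 0 < c)
    (hne : ∀ k, -(2 * alpha γ k) ≠ (c : EReal)) :
    level c = ((({k : ℕ | (c : EReal) < -(2 * alpha γ k)}.encard : ℕ∞) : ENNReal) : EReal) := by
  obtain ⟨S, hS⟩ : ∃ S : Set ℕ, S = {k : ℕ | (c : EReal) < -(2 * alpha γ k)} := ⟨_, rfl⟩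
  rw [← hS]
  have hin : ∀ k ∈ S, (((k + 1 : ℕ) : ℝ) : EReal) ≤ level c := by
    intro k hk
    rw [hS] at hk
    exact le_level hγ h hc hk
  have hout : ∀ k ∉ S, level c ≤ ((k : ℝ) : EReal) := by
    intro k hk
    rw [hS] at hk
    exact level_le hγ h (lt_of_le_of_ne (not_lt.1 hk) (hne k)) hc
  have hlow : ∀ j k, j ∉ S → j ≤ k → k ∉ S := by
    intro j k hj hjk hk
    have h1 := (hin k hk).trans (hout j hj)
    have h2 : ((k + 1 : ℕ) : ℝ) ≤ j := by exact_mod_cast h1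
    have h3 : k + 1 ≤ j := by exact_mod_cast h2
    omega
  by_cases hall : ∀ k, k ∈ S
  · have e : S = Set.univ := Set.eq_univ_of_forall hall
    rw [e, Set.encard_univ]
    have h1 : level c = ⊤ := by
      rw [EReal.eq_top_iff_forall_lt]
      intro y
      obtain ⟨k, hk⟩ := exists_nat_gt y
      refine lt_of_lt_of_le ?_ (hin k (hall k))
      exact_mod_cast (by push_cast; linarith : y < ((k + 1 : ℕ) : ℝ))
    rw [h1]
    simp
  · push Not at hall
    classical
    obtain ⟨K, hK⟩ : ∃ K, K = Nat.find hall := ⟨_, rfl⟩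
    have hK1 : K ∉ S := by rw [hK]; exact Nat.find_spec hall
    have hK2 : ∀ j < K, j ∈ S := by
      intro j hj
      rw [hK] at hj
      exact not_not.1 (Nat.find_min hall hj)
    have e : S = ((range K : Finset ℕ) : Set ℕ) := by
      ext j
      rw [mem_coe, mem_range]
      constructor
      · intro hj
        by_contra hcon
        exact hlow K j hK1 (not_lt.1 hcon) hj
      · exact hK2 j
    rw [e, Set.encard_coe_eq_coe_finsetCard, card_range]
    rw [cast_nat]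
    refine le_antisymm (hout K hK1) ?_
    rcases Nat.eq_zero_or_pos K with h0 | h0
    · exfalso
      rw [h0, hS] at hK1
      apply hK1
      show (c : EReal) < -(2 * alpha γ 0)
      rw [alpha_zero, EReal.mul_bot_of_pos (by norm_num), EReal.neg_bot]
      exact EReal.coe_lt_top c
    · have h1 := hin (K - 1) (hK2 (K - 1) (by omega))
      have e3 : K - 1 + 1 = K := by omega
      rw [e3] at h1
      exact h1

end Pool.Agent.ZP31
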