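import Pool.Agent.Lib.MP_af3d17_nt_h31.Main

/-!
# MP_af3d17_nt: mirror images of zeros, and the number of ordinates near `t`, unconditionally
-/

set_option autoImplicit false

namespace Pool.Agent.ZP31

open Finset Complex Filter Topology Metric
open Pool.Agent.ZP

variable {γ : ℕ → ℝ}

/-- the order at the conjugate point -/
lemma order_conj {w : ℂ} (hw : AnalyticAt ℂ riemannZeta w)
    (hw' : AnalyticAt ℂ riemannZeta ((starRingEnd ℂ) w))
    (htop : analyticOrderAt riemannZeta w ≠ ⊤) :
    analyticOrderAt riemannZeta ((starRingEnd ℂ) w) = analyticOrderAt riemannZeta w := by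
  obtain ⟨n, hn⟩ := ENat.ne_top_iff_exists.1 htop
  rw [← hn, hw'.analyticOrderAt_eq_natCast]
  obtain ⟨g, hg, hg0, hfg⟩ := hw.analyticOrderAt_eq_natCast.1 hn.symm
  refine ⟨fun z => (starRingEnd ℂ) (g ((starRingEnd ℂ) z)), ?_, ?_, ?_⟩
  · rw [analyticAt_iff_eventually_differentiableAt]
    have h1 : ∀ᶠ z in 𝓝 w, DifferentiableAt ℂ g z :=
      analyticAt_iff_eventually_differentiableAt.1 hg
    have h2 : Tendsto (starRingEnd ℂ) (𝓝 ((starRingEnd ℂ) w)) (𝓝 w) := by
      have := (Complex.continuous_conj.tendsto ((starRingEnd ℂ) w))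
      rwa [Complex.conj_conj] at this
    filter_upwards [h2.eventually h1] with z hz
    have h3 := hz.star_star
    simpa [Function.comp_def] using h3
  · simpa using hg0
  · have h2 : Tendsto (starRingEnd ℂ) (𝓝 ((starRingEnd ℂ) w)) (𝓝 w) := by
      have := (Complex.continuous_conj.tendsto ((starRingEnd ℂ) w))
      rwa [Complex.conj_conj] at this
    filter_upwards [h2.eventually hfg] with z hz
    have h3 : riemannZeta z = (starRingEnd ℂ) (riemannZeta ((starRingEnd ℂ) z)) := by
      rw [riemannZeta_conj, Complex.conj_conj]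
    rw [h3, hz]
    simp

/-- the order at the mirror image -/
lemma order_mirror {ρ : ℂ} (h : IsUpperZero ρ) :
    analyticOrderAt riemannZeta (1 - (starRingEnd ℂ) ρ) = analyticOrderAt riemannZeta ρ := by
  have him : 0 < ρ.im := h.2.2.2
  have hA1 : AnalyticAt ℂ riemannZeta (1 - ρ) := by
    have h1 : (1 - ρ) ≠ 1 := by
      intro h0
      have := congrArg Complex.im h0
      simp at this
      linarith
    have h2 : DifferentiableOn ℂ riemannZeta {1}ᶜ := fun s hs =>
      (differentiableAt_riemannZeta hs).differentiableWithinAt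
    exact h2.analyticAt (isOpen_compl_singleton.mem_nhds h1)
  have hA2 : AnalyticAt ℂ riemannZeta ((starRingEnd ℂ) (1 - ρ)) := by
    have h1 : ((starRingEnd ℂ) (1 - ρ)) ≠ 1 := by
      intro h0
      have := congrArg Complex.im h0
      simp at this
      linarith
    have h2 : DifferentiableOn ℂ riemannZeta {1}ᶜ := fun s hs =>
      (differentiableAt_riemannZeta hs).differentiableWithinAt
    exact h2.analyticAt (isOpen_compl_singleton.mem_nhds h1)
  have e1 : 1 - (starRingEnd ℂ) ρ = (starRingEnd ℂ) (1 - ρ) := by simp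
  rw [e1, order_conj hA1 hA2 (order_ne_top _)]
  -- the function `s ↦ ζ(1 - s)`
  have e2 : analyticOrderAt (riemannZeta ∘ fun s : ℂ => 1 - s) ρ =
      analyticOrderAt riemannZeta (1 - ρ) := by
    refine analyticOrderAt_comp_of_deriv_ne_zero (analyticAt_const.sub analyticAt_id) ?_
    simp
  rw [← e2]
  have hopen : IsOpen {s : ℂ | 0 < s.im} := isOpen_lt continuous_const Complex.continuous_im
  have e3 : (riemannZeta ∘ fun s : ℂ => 1 - s) =ᶠ[𝓝 ρ]
      (fun s : ℂ => 2 * (2 * (Real.pi : ℂ)) ^ (-s) * Complex.Gamma s * Complex.cos (Real.pi * s / 2)) *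
        riemannZeta := by
    filter_upwards [hopen.mem_nhds him] with s hs
    have hs' : 0 < s.im := hs
    simp only [Function.comp_apply, Pi.mul_apply]
    refine riemannZeta_one_sub (fun n hn => ?_) (fun hn => ?_)
    · rw [hn] at hs'; simp at hs'
    · rw [hn] at hs'; simp at hs'
  have hGa : AnalyticAt ℂ Complex.Gamma ρ := by
    rw [analyticAt_iff_eventually_differentiableAt]
    filter_upwards [hopen.mem_nhds him] with s hs
    have hs' : 0 < s.im := hs
    refine Complex.differentiableAt_Gamma s fun n hn => ?_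
    rw [hn] at hs'; simp at hs'
  have hpi : (2 * (Real.pi : ℂ)) ≠ 0 := by
    have := Real.pi_ne_zero
    exact mul_ne_zero two_ne_zero (by exact_mod_cast this)
  have hC : AnalyticAt ℂ (fun s : ℂ => 2 * (2 * (Real.pi : ℂ)) ^ (-s) * Complex.Gamma s *
      Complex.cos (Real.pi * s / 2)) ρ := by
    refine AnalyticAt.mul (AnalyticAt.mul (AnalyticAt.mul analyticAt_const ?_) hGa) ?_
    · rw [analyticAt_iff_eventually_differentiableAt]
      refine Eventually.of_forall fun s => ?_
      exact (differentiableAt_id.neg).const_cpow (Or.inl hpi)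
    · rw [analyticAt_iff_eventually_differentiableAt]
      refine Eventually.of_forall fun s => ?_
      fun_prop
  have hC0 : (fun s : ℂ => 2 * (2 * (Real.pi : ℂ)) ^ (-s) * Complex.Gamma s *
      Complex.cos (Real.pi * s / 2)) ρ ≠ 0 := by
    refine mul_ne_zero (mul_ne_zero (mul_ne_zero two_ne_zero ?_) ?_) ?_
    · rw [Complex.cpow_def_of_ne_zero hpi]
      exact Complex.exp_ne_zero _
    · refine Complex.Gamma_ne_zero fun n hn => ?_
      rw [hn] at him; simp at him
    · intro h0
      rw [Complex.cos_eq_zero_iff] at h0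
      obtain ⟨k, hk⟩ := h0
      have h4 := congrArg Complex.im hk
      have e5 : (((2 * (k : ℂ) + 1) * (Real.pi : ℂ)) / 2).im = 0 := by
        have : ((2 * (k : ℂ) + 1) * (Real.pi : ℂ)) / 2 = (((2 * (k : ℝ) + 1) * Real.pi / 2 : ℝ) : ℂ) := by
          push_cast; ring
        rw [this, Complex.ofReal_im]
      have e6 : ((Real.pi : ℂ) * ρ / 2).im = Real.pi * ρ.im / 2 := by
        have : (Real.pi : ℂ) * ρ / 2 = ((Real.pi / 2 : ℝ) : ℂ) * ρ := by push_cast; ring
        rw [this, Complex.im_ofReal_mul]
        ring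
      rw [e5, e6] at h4
      have := Real.pi_pos
      have : 0 < Real.pi * ρ.im / 2 := by positivity
      linarith
  rw [analyticOrderAt_congr e3, analyticOrderAt_mul hC (analyticAt_zeta h),
    (hC.analyticOrderAt_eq_zero).2 hC0, zero_add]

end Pool.Agent.ZP31
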