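import Mathlib

/-!
# MP_af3d17_nt: intervals with bounded overlap
-/

set_option autoImplicit false

namespace Pool.Agent.ZP31

open Finset MeasureTheory

/-- intervals contained in `P` with overlap at most `M` -/
lemma overlap {ι : Type*} (J : Finset ι) (a r : ι → ℝ) (P : Set ℝ) {M : ℝ}
    (hsub : ∀ j ∈ J, Set.Icc (a j - r j) (a j + r j) ⊆ P)
    (hov : ∀ t, ∀ S : Finset ι, S ⊆ J → S.Nonempty →
      (∀ j ∈ S, t ∈ Set.Icc (a j - r j) (a j + r j)) → (S.card : ℝ) ≤ M) :
    ∑ j ∈ J, ENNReal.ofReal (2 * r j) ≤ ENNReal.ofReal M * volume P := by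
  classical
  obtain ⟨U, hU⟩ : ∃ U : Set ℝ, U = ⋃ n ∈ J, Set.Icc (a n - r n) (a n + r n) := ⟨_, rfl⟩
  have hUsub : U ⊆ P := by
    intro t ht
    rw [hU, Set.mem_iUnion₂] at ht
    obtain ⟨n, hn, ht⟩ := ht
    exact hsub n hn ht
  have hUm : MeasurableSet U := by
    rw [hU]
    exact J.measurableSet_biUnion fun n _ => measurableSet_Icc
  have hover : ∀ t : ℝ, (∑ n ∈ J, (Set.Icc (a n - r n) (a n + r n)).indicator
      (fun _ => (1 : ENNReal)) t) ≤ ENNReal.ofReal M * U.indicator (fun _ => (1 : ENNReal)) t := by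
    intro t
    by_cases ht : t ∈ U
    · rw [Set.indicator_of_mem ht, mul_one]
      have ht' := ht
      rw [hU, Set.mem_iUnion₂] at ht'
      obtain ⟨n0, hn0, ht1⟩ := ht'
      have e1 : (∑ n ∈ J, (Set.Icc (a n - r n) (a n + r n)).indicator (fun _ => (1 : ENNReal)) t) =
          ((J.filter (fun n => t ∈ Set.Icc (a n - r n) (a n + r n))).card : ℕ) := by
        rw [Finset.card_filter, Nat.cast_sum]
        refine Finset.sum_congr rfl fun n _ => ?_
        by_cases h10 : t ∈ Set.Icc (a n - r n) (a n + r n)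
        · rw [Set.indicator_of_mem h10, if_pos h10, Nat.cast_one]
        · rw [Set.indicator_of_notMem h10, if_neg h10, Nat.cast_zero]
      rw [e1]
      have h9 := hov t (J.filter (fun n => t ∈ Set.Icc (a n - r n) (a n + r n)))
        (filter_subset _ _) ⟨n0, mem_filter.2 ⟨hn0, ht1⟩⟩ (fun j hj => (mem_filter.1 hj).2)
      rw [← ENNReal.ofReal_natCast]
      exact ENNReal.ofReal_le_ofReal h9
    · have e1 : (∑ n ∈ J, (Set.Icc (a n - r n) (a n + r n)).indicator (fun _ => (1 : ENNReal)) t) = 0 := by
        refine Finset.sum_eq_zero fun n hn => ?_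
        refine Set.indicator_of_notMem ?_ _
        intro h10
        apply ht
        rw [hU, Set.mem_iUnion₂]
        exact ⟨n, hn, h10⟩
      rw [e1]
      exact zero_le
  have hint := lintegral_mono (μ := volume) hover
  rw [lintegral_finsetSum _ (fun n _ => (measurable_const.indicator measurableSet_Icc)),
    lintegral_const_mul _ (measurable_const.indicator hUm)] at hint
  simp only [lintegral_indicator measurableSet_Icc, lintegral_indicator hUm, lintegral_const,
    Measure.restrict_apply MeasurableSet.univ, Set.univ_inter, one_mul, Real.volume_Icc] at hint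
  have e2 : ∀ n ∈ J, ENNReal.ofReal (a n + r n - (a n - r n)) = ENNReal.ofReal (2 * r n) := by
    intro n _
    congr 1
    ring
  rw [Finset.sum_congr rfl e2] at hint
  exact hint.trans (mul_le_mul' le_rfl (measure_mono hUsub))

end Pool.Agent.ZP31
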