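import Pool.Agent.Lib.MP_af3d17_nt_h31.Mirror
import Pool.Agent.Lib.MP_af3d17_nt_h31.Overlap

/-!
# MP_af3d17_nt: peaks, small gaps and zeros off the line, without any hypothesis
-/

set_option autoImplicit false

namespace Pool.Agent.ZP31

open Finset Complex Filter Topology Metric
open Pool.Agent.ZP

variable {γ : ℕ → ℝ}

lemma rpow_small {x : ℝ} (hx : 0 < x) : ∀ᶠ t : ℝ in atTop, t ^ (-x) ≤ 1 / 5 :=
  ((tendsto_rpow_neg_atTop hx).eventually (gt_mem_nhds (by norm_num : (0 : ℝ) < 1 / 5))).mono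
    fun _ ht => ht.le

lemma norm_sq_pt (ρ : ℂ) (t : ℝ) :
    ‖ρ - (3 / 2 + t * I)‖ ^ 2 = (3 / 2 - ρ.re) ^ 2 + (ρ.im - t) ^ 2 := by
  rw [← Complex.normSq_eq_norm_sq, Complex.normSq_apply]
  simp only [Complex.sub_re, Complex.add_re, Complex.mul_re, Complex.sub_im, Complex.add_im,
    Complex.mul_im, Complex.ofReal_re, Complex.ofReal_im, Complex.I_re, Complex.I_im]
  norm_num
  ring

lemma upper_of_mem {t h : ℝ} (ht : 100 ≤ t) (h1 : h ≤ 1 / 5) {p : ℂ × ℕ} (hp : p ∈ zerosIn t h) :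
    IsUpperZero p.1 := by
  obtain ⟨h3, h4, h5⟩ := hp
  obtain ⟨h6, h7, h8, h9⟩ := mem_disc (mem_big_disc h1 h4)
  refine ⟨h3, by linarith, ?_, by linarith⟩
  by_contra hcon
  exact riemannZeta_ne_zero_of_one_le_re (not_lt.1 hcon) h3

/-- the number of pairs in the disc -/
lemma card_zerosIn : ∃ C T1 : ℝ, 0 < C ∧ 100 ≤ T1 ∧ ∀ t ≥ T1,
    ∃ n : ℕ, (zerosIn t (1 / 5)).encard = n ∧ (n : ℝ) ≤ C * Real.log t := by
  obtain ⟨C, T1, hC, hT1, hz⟩ := primeSum_zeros
  refine ⟨C, T1, hC, hT1, fun t ht1 => ?_⟩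
  obtain ⟨n, z, h1, h2, h3, h4⟩ := hz t ht1
  have hE : Enum C t z := ⟨h1, h2, h3, h4⟩
  refine ⟨_, encard_zerosIn (hT1.trans ht1) hE le_rfl, ?_⟩
  refine le_trans ?_ h1
  have h7 : (near z t (1 / 5)).card ≤ n := by
    refine (Finset.card_le_univ _).trans ?_
    rw [Fintype.card_fin]
  exact_mod_cast h7

/-- few indices close to `t`, without any hypothesis -/
lemma ncard_near_unc (hγ : IsOrdinateSeq γ) : ∃ C T1 : ℝ, 0 < C ∧ 100 ≤ T1 ∧
    ∀ t ≥ T1, (({n | (γ n - t) ^ 2 ≤ 1 / 5}.ncard : ℕ) : ℝ) ≤ C * Real.log t := by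
  obtain ⟨C, T1, hC, hT1, hz⟩ := card_zerosIn
  refine ⟨2 * C, T1, by positivity, hT1, fun t ht => ?_⟩
  obtain ⟨N, hN, hNC⟩ := hz t ht
  have ht100 : 100 ≤ t := hT1.trans ht
  have h2 : {n | (γ n - t) ^ 2 ≤ 1 / 5} = {n | γ n ∈ {x : ℝ | (x - t) ^ 2 ≤ 1 / 5}} := rfl
  have h3 := encard_index hγ (W := {x : ℝ | (x - t) ^ 2 ≤ 1 / 5}) (T := t + 1) (fun x hx => by
    have hx' : (x - t) ^ 2 ≤ 1 ^ 2 := by
      have : (x - t) ^ 2 ≤ 1 / 5 := hx
      linarith
    have := (abs_le_of_sq_le_sq' hx' (by norm_num)).2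
    linarith)
  rw [← h2] at h3
  obtain ⟨P, hP⟩ : ∃ P : Set (ℂ × ℕ), P = {p : ℂ × ℕ | IsUpperZero p.1 ∧
    p.1.im ∈ {x : ℝ | (x - t) ^ 2 ≤ 1 / 5} ∧ (p.2 : ℕ∞) < analyticOrderAt riemannZeta p.1} := ⟨_, rfl⟩
  rw [← hP] at h3
  have hin : ∀ p ∈ P, 1 / 2 ≤ p.1.re → p ∈ zerosIn t (1 / 5) := by
    intro p hp hre
    rw [hP] at hp
    obtain ⟨h4, h5, h6⟩ := hp
    have h5' : (p.1.im - t) ^ 2 ≤ 1 / 5 := h5
    refine ⟨h4.1, ?_, h6⟩
    rw [norm_sq_pt]
    have h7 := h4.2.2.1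
    nlinarith
  have hsub : P ⊆ zerosIn t (1 / 5) ∪
      (fun p : ℂ × ℕ => (1 - (starRingEnd ℂ) p.1, p.2)) '' zerosIn t (1 / 5) := by
    intro p hp
    rcases le_or_gt (1 / 2) p.1.re with h4 | h4
    · exact Or.inl (hin p hp h4)
    · right
      have hp' := hp
      rw [hP] at hp'
      obtain ⟨h5, h6, h7⟩ := hp'
      obtain ⟨h8, h9⟩ := mirror h5
      refine ⟨(1 - (starRingEnd ℂ) p.1, p.2), hin _ ?_ ?_, ?_⟩
      · rw [hP]
        refine ⟨h8, ?_, ?_⟩
        · show (1 - (starRingEnd ℂ) p.1).im ∈ _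
          rw [h9]; exact h6
        · show (p.2 : ℕ∞) < analyticOrderAt riemannZeta (1 - (starRingEnd ℂ) p.1)
          rw [order_mirror h5]
          exact h7
      · simp only [Complex.sub_re, Complex.one_re, Complex.conj_re]
        linarith
      · simp
  have h4 : P.encard ≤ (N : ℕ∞) + N := by
    refine (Set.encard_le_encard hsub).trans ((Set.encard_union_le _ _).trans ?_)
    rw [hN]
    exact add_le_add le_rfl ((Set.encard_image_le _ _).trans (le_of_eq hN))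
  rw [← h3] at h4
  have h5 : {n | (γ n - t) ^ 2 ≤ 1 / 5}.ncard ≤ N + N := by
    rw [Set.ncard]
    have h6 : {n | (γ n - t) ^ 2 ≤ 1 / 5}.encard ≤ ((N + N : ℕ) : ℕ∞) := by
      rw [Nat.cast_add]; exact h4
    have := ENat.toNat_le_toNat h6 (ENat.natCast_ne_top _)
    rwa [ENat.toNat_natCast] at this
  have h6 : (({n | (γ n - t) ^ 2 ≤ 1 / 5}.ncard : ℕ) : ℝ) ≤ N + N := by exact_mod_cast h5
  linarith

/-- a zero off the line, to the right -/
lemma right_zero {ρ : ℂ} (h : IsUpperZero ρ) (h1 : ρ.re ≠ 1 / 2) :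
    ∃ σ : ℂ, IsUpperZero σ ∧ σ.im = ρ.im ∧ 1 / 2 < σ.re ∧ σ.re - 1 / 2 = |ρ.re - 1 / 2| := by
  rcases lt_or_gt_of_ne h1 with h2 | h2
  · obtain ⟨h3, h4⟩ := mirror h
    have e : (1 - (starRingEnd ℂ) ρ).re = 1 - ρ.re := by simp
    refine ⟨_, h3, h4, by rw [e]; linarith, ?_⟩
    rw [e, abs_of_neg (by linarith)]
    ring
  · exact ⟨ρ, h, rfl, h2, by rw [abs_of_pos (by linarith)]⟩

/-- a peak is close to a small cluster or to a zero off the line -/
lemma gap_or_off_of_peak (hγ : IsOrdinateSeq γ) {c ε : ℝ} (hε : 0 < ε)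
    (hc : ε < c) {j : ℕ} {lam : ℝ} (hj : j < lam) :
    ∀ᶠ t : ℝ in atTop, (lam : EReal) ≤ peak c t →
      (∃ n, (γ n - t) ^ 2 ≤ 2 * t ^ (-c + ε) ∧ (γ (n + j) - t) ^ 2 ≤ 2 * t ^ (-c + ε)) ∨
      ∃ ρ, IsUpperZero ρ ∧ 1 / 2 < ρ.re ∧ (ρ.im - t) ^ 2 ≤ 4 * (ρ.re - 1 / 2) ∧
        (ρ.im - t) ^ 2 ≤ 1 := by
  obtain ⟨C, T1, hC, hT1, hz⟩ := primeSum_zeros
  have hs1 : ∀ᶠ t : ℝ in atTop, t ^ (-c + ε) ≤ 1 / 5 := by
    have := rpow_small (x := c - ε) (by linarith)
    rwa [neg_sub, ← neg_add_eq_sub] at this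
  filter_upwards [upper hC hε hc (show (0 : ℝ) < (lam - j) / 2 by linarith),
    eventually_ge_atTop T1, hs1] with t h1 h2 h3 hpk
  have ht : 100 ≤ t := hT1.trans h2
  obtain ⟨n, z, h5, h6, h7, h8⟩ := hz t h2
  have hE : Enum C t z := ⟨h5, h6, h7, h8⟩
  obtain ⟨h, hh⟩ : ∃ h : ℝ, h = t ^ (-c + ε) := ⟨_, rfl⟩
  have hh0 : 0 ≤ h := by rw [hh]; positivity
  rw [← hh] at h1 h3 ⊢
  by_cases hopen : ∀ i, 1 ≤ ‖pt (3 / 2) t - z i‖
  · have h9 : peak c t ≤ (((near z t h).card + (lam - j) / 2 : ℝ) : EReal) := by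
      refine iSup_le fun k => iSup_le fun hk => ?_
      exact_mod_cast h1 n z hE hopen k hk
    have h10 : lam ≤ (near z t h).card + (lam - j) / 2 := by
      exact_mod_cast hpk.trans h9
    have h11 : j + 1 ≤ (near z t h).card := by
      by_contra hcon
      have : ((near z t h).card : ℝ) ≤ j := by
        exact_mod_cast (by omega : (near z t h).card ≤ j)
      linarith
    have h12 : ((j + 1 : ℕ) : ℕ∞) ≤ (zerosIn t h).encard := by
      rw [encard_zerosIn ht hE h3]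
      exact_mod_cast h11
    by_cases hoff : ∃ p ∈ zerosIn t h, h ≤ 2 * |p.1.re - 1 / 2| ∧ p.1.re ≠ 1 / 2
    · obtain ⟨p, hp, hpb, hpre⟩ := hoff
      have hpu := upper_of_mem ht h3 hp
      obtain ⟨σ, hs1, hs2, hs3, hs4⟩ := right_zero hpu hpre
      obtain ⟨h13, h14, h15⟩ := hp
      rw [norm_sq_pt] at h14
      have hs5 := hs1.2.2.1
      obtain ⟨b, hb⟩ : ∃ b : ℝ, b = σ.re - 1 / 2 := ⟨_, rfl⟩
      have hb0 : 0 < b := by linarith
      have hb1 : b < 1 / 2 := by linarith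
      rw [← hb] at hs4
      -- the key inequality
      have h16 : (σ.im - t) ^ 2 ≤ h + 2 * b - b ^ 2 := by
        rw [hs2]
        rcases abs_cases (p.1.re - 1 / 2) with ⟨h17, h18⟩ | ⟨h17, h18⟩
        · rw [h17] at hs4
          have : p.1.re = b + 1 / 2 := by linarith
          rw [this] at h14
          nlinarith
        · rw [h17] at hs4
          have : p.1.re = 1 / 2 - b := by linarith
          rw [this] at h14
          nlinarith
      right
      refine ⟨σ, hs1, hs3, ?_, ?_⟩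
      · rw [← hb]; nlinarith
      · nlinarith
    · push Not at hoff
      left
      have hnear : ∀ p ∈ zerosIn t h, (p.1.im - t) ^ 2 ≤ 2 * h := by
        intro p hp
        have h14 := hp.2.1
        rw [norm_sq_pt] at h14
        by_cases h13 : p.1.re = 1 / 2
        · rw [h13] at h14
          linarith
        · have h17 : 2 * |p.1.re - 1 / 2| < h := by
            by_contra hcon
            exact h13 (hoff p hp (not_lt.1 hcon))
          rcases abs_cases (p.1.re - 1 / 2) with ⟨h18, h19⟩ | ⟨h18, h19⟩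
          · rw [h18] at h17
            nlinarith [sq_nonneg (p.1.re - 1 / 2)]
          · rw [h18] at h17
            nlinarith [sq_nonneg (p.1.re - 1 / 2)]
      have h13 : ((j + 1 : ℕ) : ℕ∞) ≤ {n | (γ n - t) ^ 2 ≤ 2 * h}.encard := by
        have h14 : {n | (γ n - t) ^ 2 ≤ 2 * h} = {n | γ n ∈ {x : ℝ | (x - t) ^ 2 ≤ 2 * h}} := rfl
        rw [h14, encard_index hγ (T := t + 1) (fun x hx => by
          have hx' : (x - t) ^ 2 ≤ 1 ^ 2 := by
            have : (x - t) ^ 2 ≤ 2 * h := hx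
            linarith
          have := (abs_le_of_sq_le_sq' hx' (by norm_num)).2
          linarith)]
        refine h12.trans (Set.encard_le_encard fun p hp => ?_)
        exact ⟨upper_of_mem ht h3 hp, hnear p hp, hp.2.2⟩
      -- the first index
      classical
      have hex : ∃ m, (γ m - t) ^ 2 ≤ 2 * h := by
        have h14 : {n | (γ n - t) ^ 2 ≤ 2 * h}.Nonempty := by
          rw [← Set.one_le_encard_iff_nonempty]
          refine le_trans ?_ h13
          exact_mod_cast (by omega : 1 ≤ j + 1)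
        exact h14
      obtain ⟨m, hm⟩ : ∃ m, m = Nat.find hex := ⟨_, rfl⟩
      have hm1 : (γ m - t) ^ 2 ≤ 2 * h := by rw [hm]; exact Nat.find_spec hex
      have hm2 : ∀ i < m, ¬ (γ i - t) ^ 2 ≤ 2 * h := by
        intro i hi
        rw [hm] at hi
        exact Nat.find_min hex hi
      refine ⟨m, hm1, ?_⟩
      by_contra hcon
      have hlarge : t < γ (m + j) := by
        by_contra hle
        push Not at hle
        have h14 : γ m ≤ γ (m + j) := hγ.mono (Nat.le_add_right m j)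
        apply hcon
        nlinarith
      have hsub : {n | (γ n - t) ^ 2 ≤ 2 * h} ⊆ ((Finset.Ico m (m + j) : Finset ℕ) : Set ℕ) := by
        intro i hi
        have hi' : (γ i - t) ^ 2 ≤ 2 * h := hi
        rw [mem_coe, mem_Ico]
        refine ⟨not_lt.1 fun hlt => hm2 i hlt hi', ?_⟩
        by_contra hge
        push Not at hge
        have h14 : γ (m + j) ≤ γ i := hγ.mono hge
        apply hcon
        nlinarith
      have h15 := h13.trans (Set.encard_le_encard hsub)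
      rw [Set.encard_coe_eq_coe_finsetCard, Nat.card_Ico] at h15
      have h16 : j + 1 ≤ m + j - m := by exact_mod_cast h15
      omega
  · right
    push Not at hopen
    obtain ⟨i, hi⟩ := hopen
    have h9 := hE.zeta ht i
    have h10 : ‖z i - (3 / 2 + t * I)‖ < 1 := by
      rw [norm_sub_rev, ← ZP20.pt_eq]; exact hi
    have h11 : ‖z i - (3 / 2 + t * I)‖ ^ 2 < 1 := by
      have := norm_nonneg (z i - (3 / 2 + t * I))
      nlinarith
    have h12 : (z i, 0) ∈ zerosIn t 0 := by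
      refine ⟨h9, by linarith, ?_⟩
      have h13 : analyticOrderAt riemannZeta (z i) ≠ 0 := by
        obtain ⟨h6, h7, h8, h9'⟩ := mem_disc (hE.mem i)
        exact (zeta_analyticAt (by linarith)).analyticOrderAt_ne_zero.2 h9
      exact pos_iff_ne_zero.2 h13
    have hup := upper_of_mem ht (by norm_num) h12
    simp only at hup
    rw [norm_sq_pt] at h11
    have h13 := hup.2.2.1
    obtain ⟨b, hb⟩ : ∃ b : ℝ, b = (z i).re - 1 / 2 := ⟨_, rfl⟩
    have e1 : (z i).re = b + 1 / 2 := by linarith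
    rw [e1] at h11 h13
    have hb0 : 0 < b := by
      by_contra hcon
      push Not at hcon
      nlinarith [sq_nonneg ((z i).im - t)]
    refine ⟨z i, hup, by linarith, ?_, ?_⟩
    · rw [e1]; nlinarith
    · nlinarith [sq_nonneg ((z i).im - t)]

/-- a small cluster is close to peaks -/
lemma peak_of_gap_unc (hγ : IsOrdinateSeq γ) {c ε : ℝ} (hε : 0 < ε)
    (hc : ε < c) {j : ℕ} {lam : ℝ} (hj : lam < j + 1) :
    ∀ᶠ t : ℝ in atTop, ∀ n, (γ n - t) ^ 2 ≤ t ^ (-c - ε) / 4 →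
      (γ (n + j) - t) ^ 2 ≤ t ^ (-c - ε) / 4 → (lam : EReal) ≤ peak c t := by
  obtain ⟨C, T1, hC, hT1, hz⟩ := primeSum_zeros
  have hs1 : ∀ᶠ t : ℝ in atTop, t ^ (-c - ε) ≤ 1 / 5 := by
    have := rpow_small (x := c + ε) (by linarith)
    rwa [neg_add'] at this
  filter_upwards [lower hC hε hc (show (0 : ℝ) < j + 1 - lam by linarith) (j + 1), eventually_ge_atTop T1, hs1]
    with t h1 h2 h3 n hn hn'
  have ht : 100 ≤ t := hT1.trans h2
  obtain ⟨m, z, h5, h6, h7, h8⟩ := hz t h2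
  have hE : Enum C t z := ⟨h5, h6, h7, h8⟩
  obtain ⟨h, hh⟩ : ∃ h : ℝ, h = t ^ (-c - ε) := ⟨_, rfl⟩
  have hh0 : 0 ≤ h := by rw [hh]; positivity
  rw [← hh] at h1 h3 hn hn'
  by_cases hopen : ∃ ρ, riemannZeta ρ = 0 ∧ ‖ρ - (3 / 2 + t * I)‖ < 1
  · obtain ⟨ρ, h9, h10⟩ := hopen
    rw [peak_eq_top hC ht hE h9 h10 c]
    exact le_top
  · push Not at hopen
    have hopen' : ∀ i, 1 ≤ ‖pt (3 / 2) t - z i‖ := by
      intro i
      rw [norm_sub_rev, ZP20.pt_eq]
      exact hopen _ (hE.zeta ht i)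
    have h12 : ((j + 1 : ℕ) : ℕ∞) ≤ {n | (γ n - t) ^ 2 ≤ h / 4}.encard := by
      have hsub : ((Finset.Icc n (n + j) : Finset ℕ) : Set ℕ) ⊆ {n | (γ n - t) ^ 2 ≤ h / 4} := by
        intro i hi
        rw [mem_coe, mem_Icc] at hi
        have h13 : γ n ≤ γ i := hγ.mono hi.1
        have h14 : γ i ≤ γ (n + j) := hγ.mono hi.2
        show (γ i - t) ^ 2 ≤ h / 4
        rcases le_or_gt t (γ i) with h15 | h15
        · nlinarith
        · nlinarith
      have h13 := Set.encard_le_encard hsub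
      rw [Set.encard_coe_eq_coe_finsetCard, Nat.card_Icc] at h13
      refine le_trans ?_ h13
      exact_mod_cast (by omega : j + 1 ≤ n + j + 1 - n)
    have h14 : {n | (γ n - t) ^ 2 ≤ h / 4} = {n | γ n ∈ {x : ℝ | (x - t) ^ 2 ≤ h / 4}} := rfl
    rw [h14, encard_index hγ (T := t + 1) (fun x hx => by
      have hx' : (x - t) ^ 2 ≤ 1 ^ 2 := by
        have : (x - t) ^ 2 ≤ h / 4 := hx
        linarith
      have := (abs_le_of_sq_le_sq' hx' (by norm_num)).2
      linarith)] at h12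
    have h15 : {p : ℂ × ℕ | IsUpperZero p.1 ∧ p.1.im ∈ {x : ℝ | (x - t) ^ 2 ≤ h / 4} ∧
        (p.2 : ℕ∞) < analyticOrderAt riemannZeta p.1} ⊆ zerosIn t h := by
      rintro ⟨ρ, k⟩ ⟨h16, h17, h18⟩
      simp only at h16 h17 h18
      have h17' : (ρ.im - t) ^ 2 ≤ h / 4 := h17
      refine ⟨h16.1, ?_, h18⟩
      show ‖ρ - (3 / 2 + t * I)‖ ^ 2 ≤ 1 + h
      rw [norm_sq_pt]
      by_cases h19 : ρ.re = 1 / 2
      · rw [h19]; norm_num; linarith
      · obtain ⟨σ, hs1, hs2, hs3, hs4⟩ := right_zero h16 h19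
        have h20 := hopen σ hs1.1
        have h21 : 1 ≤ ‖σ - (3 / 2 + t * I)‖ ^ 2 := one_le_pow₀ h20
        rw [norm_sq_pt, hs2] at h21
        have hs5 := hs1.2.2.1
        obtain ⟨b, hb⟩ : ∃ b : ℝ, b = σ.re - 1 / 2 := ⟨_, rfl⟩
        have e1 : σ.re = b + 1 / 2 := by linarith
        rw [e1] at h21 hs5
        have hb0 : 0 < b := by linarith
        have hb2 : b ≤ h / 4 := by nlinarith
        rw [← hb] at hs4
        rcases abs_cases (ρ.re - 1 / 2) with ⟨h22, h23⟩ | ⟨h22, h23⟩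
        · rw [h22] at hs4
          have : ρ.re = b + 1 / 2 := by linarith
          rw [this]
          nlinarith
        · rw [h22] at hs4
          have : ρ.re = 1 / 2 - b := by linarith
          rw [this]
          nlinarith
    have h16 : ((j + 1 : ℕ) : ℕ∞) ≤ (zerosIn t h).encard := h12.trans (Set.encard_le_encard h15)
    rw [encard_zerosIn ht hE h3] at h16
    have h13 : j + 1 ≤ (near z t h).card := by exact_mod_cast h16
    obtain ⟨k, hk, hk'⟩ := h1 m z hE hopen'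
    rw [min_eq_right h13] at hk'
    refine le_trans ?_ (le_peak hk)
    have h14 : lam ≤ ‖ZP20.primeSum k t‖ := by
      push_cast at hk'
      linarith
    exact_mod_cast h14

/-- a zero off the line makes peaks -/
lemma peak_of_off (c : ℝ) : ∀ᶠ t : ℝ in atTop, ∀ ρ, IsUpperZero ρ → 1 / 2 < ρ.re →
    (ρ.im - t) ^ 2 ≤ ρ.re - 1 / 2 → peak c t = ⊤ := by
  obtain ⟨C, T1, hC, hT1, hz⟩ := primeSum_zeros
  filter_upwards [eventually_ge_atTop T1] with t h2 ρ h9 h10 h11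
  have ht : 100 ≤ t := hT1.trans h2
  obtain ⟨m, z, h5, h6, h7, h8⟩ := hz t h2
  have hE : Enum C t z := ⟨h5, h6, h7, h8⟩
  refine peak_eq_top hC ht hE h9.1 ?_ c
  have h12 : ‖ρ - (3 / 2 + t * I)‖ ^ 2 < 1 ^ 2 := by
    rw [norm_sq_pt]
    have := h9.2.2.1
    nlinarith
  exact lt_of_pow_lt_pow_left₀ 2 (by norm_num) h12

end Pool.Agent.ZP31
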