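import Pool.Agent.Lib.MP_af3d17_nt_h31.Unc

/-!
# MP_af3d17_nt: the measure of the peaks, without any hypothesis
-/

set_option autoImplicit false

namespace Pool.Agent.ZP31

open Finset Complex Filter Topology Metric MeasureTheory
open Pool.Agent.ZP

variable {γ : ℕ → ℝ}

/-- the number of clusters of `j + 1` ordinates of length at most `g` which begin in `[a, b]` -/
noncomputable def clusters (γ : ℕ → ℝ) (j : ℕ) (a b g : ℝ) : ℕ :=
  {n | a ≤ γ n ∧ γ n ≤ b ∧ γ (n + j) - γ n ≤ g}.ncard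

/-- the peaks in `[T, 2T]` -/
def peaks (c lam T : ℝ) : Set ℝ := {t : ℝ | T ≤ t ∧ t ≤ 2 * T ∧ (lam : EReal) ≤ peak c t}

lemma finite_small (hγ : IsOrdinateSeq γ) (j : ℕ) (a b g : ℝ) :
    {n | a ≤ γ n ∧ γ n ≤ b ∧ γ (n + j) - γ n ≤ g}.Finite :=
  (finite_le hγ b).subset fun _ hn => hn.2.1

/-- the zeros to the right of the line with ordinate in `[a, b]` -/
def offZeros (a b : ℝ) : Set ℂ := {ρ | IsUpperZero ρ ∧ 1 / 2 < ρ.re ∧ a ≤ ρ.im ∧ ρ.im ≤ b}

/-- the sum of `√(β - 1/2)` over these zeros -/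
noncomputable def offSum (a b : ℝ) : ENNReal :=
  ∑' ρ : offZeros a b, ENNReal.ofReal (Real.sqrt ((ρ : ℂ).re - 1 / 2))

/-- `g · #{clusters} + ∑ √(β - 1/2)` -/
noncomputable def weight (γ : ℕ → ℝ) (j : ℕ) (a b g : ℝ) : ENNReal :=
  ENNReal.ofReal g * (clusters γ j a b g : ENNReal) + offSum a b

lemma finite_off (a b : ℝ) : (offZeros a b).Finite :=
  (finite_zeros b).subset fun _ h => ⟨h.1, h.2.2.2⟩

lemma offSum_eq (a b : ℝ) : offSum a b =
    ∑ ρ ∈ (finite_off a b).toFinset, ENNReal.ofReal (Real.sqrt (ρ.re - 1 / 2)) := by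
  have h : offZeros a b = ((finite_off a b).toFinset : Set ℂ) := by simp
  rw [offSum, ← Finset.tsum_subtype']
  exact tsum_congr_set_coe (fun ρ : ℂ => ENNReal.ofReal (Real.sqrt (ρ.re - 1 / 2))) h

/-- upper bound -/
theorem volume_le_weight (hγ : IsOrdinateSeq γ) {c ε : ℝ} (hε : 0 < ε) (hc : ε < c)
    {j : ℕ} {lam : ℝ} (hj : j < lam) :
    ∀ᶠ T : ℝ in atTop, volume (peaks c lam T) ≤
      ENNReal.ofReal (T ^ ε) * weight γ j (T - 1) (2 * T + 1) (T ^ (-c / 2 + ε)) := by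
  obtain ⟨T1, hT1⟩ := eventually_atTop.1 (gap_or_off_of_peak hγ hε hc hj)
  have hb : ∀ᶠ T : ℝ in atTop, 4 * T ^ (-c / 2 + ε / 2) ≤ T ^ (-c / 2 + ε) := by
    filter_upwards [(tendsto_rpow_atTop (show 0 < ε / 2 by linarith)).eventually_ge_atTop 4,
      eventually_gt_atTop 0] with T h1 h2
    have e : T ^ (-c / 2 + ε) = T ^ (ε / 2) * T ^ (-c / 2 + ε / 2) := by
      rw [← Real.rpow_add h2]; congr 1; ring
    rw [e]
    exact mul_le_mul_of_nonneg_right h1 (by positivity)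
  have hb4 : ∀ᶠ T : ℝ in atTop, 4 ≤ T ^ ε := (tendsto_rpow_atTop hε).eventually_ge_atTop 4
  have hb5 : ∀ᶠ T : ℝ in atTop, T ^ (-c / 2 + ε / 2) ≤ 1 / 5 := by
    have := rpow_small (x := c / 2 - ε / 2) (by linarith)
    rwa [neg_sub, sub_eq_neg_add, ← neg_div] at this
  filter_upwards [hb, hb4, hb5, eventually_ge_atTop T1, eventually_ge_atTop 1] with T h1 h4 h5' h2 h3
  obtain ⟨R, hR⟩ : ∃ R : ℝ, R = 2 * T ^ (-c / 2 + ε / 2) := ⟨_, rfl⟩
  have hR0 : 0 < R := by rw [hR]; positivity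
  have hR1 : R ≤ 1 := by rw [hR]; linarith
  have hR3 : 2 * R ≤ T ^ (-c / 2 + ε) := by rw [hR]; linarith
  have hR2 : 2 * T ^ (-c + ε) ≤ R ^ 2 := by
    have e1 : (T ^ (-c / 2 + ε / 2)) ^ 2 = T ^ (-c + ε) := by
      rw [← Real.rpow_natCast, ← Real.rpow_mul (by linarith)]
      congr 1
      push_cast
      ring
    have e2 : 0 ≤ T ^ (-c + ε) := by positivity
    rw [hR, mul_pow, e1]
    linarith
  have hfin := finite_small hγ j (T - 1) (2 * T + 1) (T ^ (-c / 2 + ε))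
  have hoff := finite_off (T - 1) (2 * T + 1)
  have hsub : peaks c lam T ⊆ (⋃ n ∈ hfin.toFinset, Set.Icc (γ n - R) (γ n + R)) ∪
      ⋃ ρ ∈ hoff.toFinset, Set.Icc (ρ.im - 2 * Real.sqrt (ρ.re - 1 / 2))
        (ρ.im + 2 * Real.sqrt (ρ.re - 1 / 2)) := by
    rintro t ⟨ht1, ht2, ht3⟩
    rcases hT1 t (h2.trans ht1) ht3 with ⟨n, hn1, hn2⟩ | ⟨ρ, hρ1, hρ2, hρ3, hρ4⟩
    · left
      have h4 : 2 * t ^ (-c + ε) ≤ R ^ 2 := by
        have := Real.rpow_le_rpow_of_nonpos (show 0 < T by linarith) ht1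
          (show -c + ε ≤ 0 by linarith)
        linarith
      have h5 := abs_le_of_sq_le_sq' (hn1.trans h4) hR0.le
      have h6 := abs_le_of_sq_le_sq' (hn2.trans h4) hR0.le
      rw [Set.mem_iUnion₂]
      refine ⟨n, ?_, ⟨by linarith, by linarith⟩⟩
      rw [Set.Finite.mem_toFinset]
      exact ⟨by linarith, by linarith, by linarith⟩
    · right
      have h5 := abs_le_of_sq_le_sq' (show (ρ.im - t) ^ 2 ≤ 1 ^ 2 by linarith) (by norm_num)
      have h6 : (ρ.im - t) ^ 2 ≤ (2 * Real.sqrt (ρ.re - 1 / 2)) ^ 2 := by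
        rw [mul_pow, Real.sq_sqrt (by linarith)]
        linarith
      have h7 := abs_le_of_sq_le_sq' h6 (by positivity)
      rw [Set.mem_iUnion₂]
      refine ⟨ρ, ?_, ⟨by linarith, by linarith⟩⟩
      rw [Set.Finite.mem_toFinset]
      exact ⟨hρ1, hρ2, by linarith, by linarith⟩
  have hv1 : volume (⋃ n ∈ hfin.toFinset, Set.Icc (γ n - R) (γ n + R)) ≤
      ENNReal.ofReal (T ^ ε) * (ENNReal.ofReal (T ^ (-c / 2 + ε)) *
        (clusters γ j (T - 1) (2 * T + 1) (T ^ (-c / 2 + ε)) : ENNReal)) := by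
    refine (measure_biUnion_finset_le _ _).trans ?_
    have e1 : ∑ n ∈ hfin.toFinset, volume (Set.Icc (γ n - R) (γ n + R)) =
        ENNReal.ofReal (2 * R) * (hfin.toFinset.card : ENNReal) := by
      rw [Finset.sum_congr rfl (g := fun _ => ENNReal.ofReal (2 * R)) (fun n _ => by
        rw [Real.volume_Icc]
        congr 1
        ring), Finset.sum_const, nsmul_eq_mul, mul_comm]
    rw [e1, clusters, Set.ncard_eq_toFinset_card _ hfin, ← mul_assoc,
      ← ENNReal.ofReal_mul (by positivity)]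
    refine mul_le_mul' (ENNReal.ofReal_le_ofReal ?_) le_rfl
    have h6 : 0 ≤ T ^ (-c / 2 + ε) := by positivity
    nlinarith
  have hv2 : volume (⋃ ρ ∈ hoff.toFinset, Set.Icc (ρ.im - 2 * Real.sqrt (ρ.re - 1 / 2))
        (ρ.im + 2 * Real.sqrt (ρ.re - 1 / 2))) ≤
      ENNReal.ofReal (T ^ ε) * offSum (T - 1) (2 * T + 1) := by
    refine (measure_biUnion_finset_le _ _).trans ?_
    rw [offSum_eq, Finset.mul_sum]
    refine Finset.sum_le_sum fun ρ _ => ?_
    rw [Real.volume_Icc, ← ENNReal.ofReal_mul (by positivity)]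
    apply ENNReal.ofReal_le_ofReal
    have h6 := Real.sqrt_nonneg (ρ.re - 1 / 2)
    nlinarith
  calc volume (peaks c lam T) ≤ _ := measure_mono hsub
    _ ≤ _ := measure_union_le _ _
    _ ≤ _ := add_le_add hv1 hv2
    _ = _ := by rw [weight, mul_add]

/-- lower bound -/
theorem weight_le_volume (hγ : IsOrdinateSeq γ) {c ε : ℝ} (hε : 0 < ε) (hc : 0 < c)
    {j : ℕ} {lam : ℝ} (hj : lam < j + 1) :
    ∀ᶠ T : ℝ in atTop,
      ENNReal.ofReal (T ^ (-ε)) * weight γ j (T + 1) (2 * T - 1) (T ^ (-c / 2 - ε)) ≤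
        volume (peaks c lam T) := by
  obtain ⟨e, he⟩ : ∃ e : ℝ, e = min ε (c / 2) := ⟨_, rfl⟩
  have he0 : 0 < e := by rw [he]; exact lt_min hε (by linarith)
  have heε : e ≤ ε := by rw [he]; exact min_le_left _ _
  have hec : e < c := by
    have : e ≤ c / 2 := by rw [he]; exact min_le_right _ _
    linarith
  obtain ⟨T1, hT1⟩ := eventually_atTop.1 ((peak_of_gap_unc hγ he0 hec hj).and (peak_of_off c))
  obtain ⟨C, T2, hC, hT2, hnc⟩ := ncard_near_unc hγ
  obtain ⟨C', T3, hC', hT3, hnc'⟩ := card_zerosIn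
  have hb1 : ∀ᶠ T : ℝ in atTop, (2 * T ^ (-c / 2 - ε)) ^ 2 ≤ (2 * T) ^ (-c - e) / 4 := by
    filter_upwards [(tendsto_rpow_atTop hε).eventually_ge_atTop (16 * 2 ^ (c + e)),
      eventually_ge_atTop 1] with T h1 h2
    have hT : 0 < T := by linarith
    have e1 : (2 * T ^ (-c / 2 - ε)) ^ 2 = 4 * T ^ (-c - 2 * ε) := by
      rw [mul_pow, ← Real.rpow_natCast (T ^ _), ← Real.rpow_mul hT.le]
      norm_num
      congr 1
      ring
    have e2 : (2 * T) ^ (-c - e) = (2 ^ (c + e))⁻¹ * T ^ (-c - e) := by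
      rw [Real.mul_rpow (by norm_num) hT.le, ← Real.rpow_neg (by norm_num)]
      congr 2
      ring
    have e3 : T ^ (-c - ε) = T ^ ε * T ^ (-c - 2 * ε) := by
      rw [← Real.rpow_add hT]; congr 1; ring
    have h3 : T ^ (-c - ε) ≤ T ^ (-c - e) := Real.rpow_le_rpow_of_exponent_le h2 (by linarith)
    have h4 := mul_le_mul_of_nonneg_right h1 (show 0 ≤ T ^ (-c - 2 * ε) by positivity)
    rw [← e3] at h4
    have h5 : (0 : ℝ) < 2 ^ (c + e) := by positivity
    rw [e1, e2, ← div_eq_inv_mul, le_div_iff₀ (by norm_num), le_div_iff₀ h5]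
    linarith
  have hb2 : ∀ᶠ T : ℝ in atTop, (C + C') * Real.log (2 * T) ≤ T ^ ε := by
    filter_upwards [log_lt_rpow (2 * (C + C')) hε, eventually_ge_atTop 2] with T h1 h2
    have h3 : Real.log (2 * T) ≤ 2 * Real.log T := by
      have h6 : Real.log (2 * T) ≤ Real.log (T ^ 2) :=
        Real.log_le_log (by linarith) (by nlinarith)
      rwa [Real.log_pow, Nat.cast_ofNat] at h6
    have h4 := mul_le_mul_of_nonneg_left h3 (by linarith : 0 ≤ C + C')
    linarith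
  have hb3 : ∀ᶠ T : ℝ in atTop, T ^ (-c / 2 - ε) ≤ 1 / 5 := by
    have := rpow_small (x := c / 2 + ε) (by linarith)
    rwa [neg_add', ← neg_div] at this
  filter_upwards [hb1, hb2, hb3, eventually_ge_atTop (max T1 (max T2 T3)), eventually_ge_atTop 1]
    with T h1 h2 h3 h4 h5
  have hTT1 : T1 ≤ T := (le_max_left _ _).trans h4
  have hTT2 : T2 ≤ T := ((le_max_left _ _).trans (le_max_right _ _)).trans h4
  have hTT3 : T3 ≤ T := ((le_max_right _ _).trans (le_max_right _ _)).trans h4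
  have hlog : 0 ≤ Real.log (2 * T) := Real.log_nonneg (by linarith)
  obtain ⟨g, hg⟩ : ∃ g : ℝ, g = T ^ (-c / 2 - ε) := ⟨_, rfl⟩
  have hg0 : 0 < g := by rw [hg]; positivity
  rw [← hg] at h1 h3 ⊢
  have hfin := finite_small hγ j (T + 1) (2 * T - 1) g
  obtain ⟨J, hJ⟩ : ∃ J : Finset ℕ, J = hfin.toFinset := ⟨_, rfl⟩
  have hJm : ∀ n ∈ J, T + 1 ≤ γ n ∧ γ n ≤ 2 * T - 1 ∧ γ (n + j) - γ n ≤ g := by
    intro n hn
    rw [hJ, Set.Finite.mem_toFinset] at hn
    exact hn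
  have hV1 : ∑ n ∈ J, ENNReal.ofReal (2 * g) ≤
      ENNReal.ofReal (C * Real.log (2 * T)) * volume (peaks c lam T) := by
    refine overlap J γ (fun _ => g) (peaks c lam T) ?_ ?_
    · rintro n hn t ⟨ht1, ht2⟩
      obtain ⟨h6, h7, h8⟩ := hJm n hn
      have h9 : γ n ≤ γ (n + j) := hγ.mono (Nat.le_add_right n j)
      have hTt : T ≤ t := by linarith
      have ht2T : t ≤ 2 * T := by linarith
      have h10 : (2 * T) ^ (-c - e) ≤ t ^ (-c - e) :=
        Real.rpow_le_rpow_of_nonpos (by linarith) ht2T (by linarith)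
      refine ⟨hTt, ht2T, (hT1 t (by linarith)).1 n ?_ ?_⟩
      · refine le_trans ?_ (h1.trans (by linarith))
        nlinarith
      · refine le_trans ?_ (h1.trans (by linarith))
        apply sq_le_sq'
        · linarith
        · linarith
    · intro t S hS hne hSt
      obtain ⟨n0, hn0⟩ := hne
      obtain ⟨ht1, ht2⟩ := hSt n0 hn0
      obtain ⟨h6, h7, h8⟩ := hJm n0 (hS hn0)
      have hTt : T ≤ t := by linarith
      have ht2T : t ≤ 2 * T := by linarith
      have h10 := hnc t (by linarith)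
      have h11 : S.card ≤ {n | (γ n - t) ^ 2 ≤ 1 / 5}.ncard := by
        rw [← Set.ncard_coe_finset]
        refine Set.ncard_le_ncard ?_ ?_
        · intro n hn
          obtain ⟨hn2, hn3⟩ := hSt n (mem_coe.1 hn)
          show (γ n - t) ^ 2 ≤ 1 / 5
          nlinarith
        · refine (finite_le hγ (t + 1)).subset fun n hn => ?_
          have h12 : (γ n - t) ^ 2 ≤ 1 ^ 2 := by
            have : (γ n - t) ^ 2 ≤ 1 / 5 := hn
            linarith
          have := (abs_le_of_sq_le_sq' h12 (by norm_num)).2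
          show γ n ≤ t + 1
          linarith
      have h12 : (S.card : ℝ) ≤ ({n | (γ n - t) ^ 2 ≤ 1 / 5}.ncard : ℝ) := by exact_mod_cast h11
      have h13 : Real.log t ≤ Real.log (2 * T) := Real.log_le_log (by linarith) ht2T
      have h14 := mul_le_mul_of_nonneg_left h13 hC.le
      linarith
  obtain ⟨Z, hZ⟩ : ∃ Z : Finset ℂ, Z = (finite_off (T + 1) (2 * T - 1)).toFinset := ⟨_, rfl⟩
  have hZm : ∀ ρ ∈ Z, IsUpperZero ρ ∧ 1 / 2 < ρ.re ∧ T + 1 ≤ ρ.im ∧ ρ.im ≤ 2 * T - 1 := by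
    intro ρ hρ
    rw [hZ, Set.Finite.mem_toFinset] at hρ
    exact hρ
  have hV2 : ∑ ρ ∈ Z, ENNReal.ofReal (2 * Real.sqrt (ρ.re - 1 / 2)) ≤
      ENNReal.ofReal (C' * Real.log (2 * T)) * volume (peaks c lam T) := by
    have hsq : ∀ ρ ∈ Z, ∀ t, t ∈ Set.Icc (ρ.im - Real.sqrt (ρ.re - 1 / 2))
        (ρ.im + Real.sqrt (ρ.re - 1 / 2)) →
        (ρ.im - t) ^ 2 ≤ ρ.re - 1 / 2 ∧ T ≤ t ∧ t ≤ 2 * T := by
      rintro ρ hρ t ⟨ht1, ht2⟩
      obtain ⟨h6, h7, h8, h9⟩ := hZm ρ hρ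
      have h10 : Real.sqrt (ρ.re - 1 / 2) ^ 2 = ρ.re - 1 / 2 := Real.sq_sqrt (by linarith)
      have h11 := Real.sqrt_nonneg (ρ.re - 1 / 2)
      have h12 := h6.2.2.1
      have h13 : Real.sqrt (ρ.re - 1 / 2) ≤ 1 := by nlinarith
      refine ⟨?_, by linarith, by linarith⟩
      rw [← h10]
      apply sq_le_sq'
      · linarith
      · linarith
    refine overlap Z (fun ρ => ρ.im) (fun ρ => Real.sqrt (ρ.re - 1 / 2)) (peaks c lam T) ?_ ?_
    · intro ρ hρ t ht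
      obtain ⟨h6, h7, h8⟩ := hsq ρ hρ t ht
      refine ⟨h7, h8, ?_⟩
      rw [(hT1 t (by linarith)).2 ρ (hZm ρ hρ).1 (hZm ρ hρ).2.1 h6]
      exact le_top
    · intro t S hS hne hSt
      obtain ⟨n0, hn0⟩ := hne
      obtain ⟨h6, h7, h8⟩ := hsq n0 (hS hn0) t (hSt n0 hn0)
      obtain ⟨N, hN, hNC⟩ := hnc' t (by linarith)
      have h9 : ((S : Set ℂ).image fun ρ => (ρ, (0 : ℕ))) ⊆ zerosIn t (1 / 5) := by
        rintro _ ⟨ρ, hρ, rfl⟩
        obtain ⟨h10, h11, h12⟩ := hsq ρ (hS (mem_coe.1 hρ)) t (hSt ρ (mem_coe.1 hρ))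
        obtain ⟨h13, h14, h15, h16⟩ := hZm ρ (hS (mem_coe.1 hρ))
        refine ⟨h13.1, ?_, lt_of_lt_of_le (by norm_num) (order_pos h13)⟩
        show ‖ρ - (3 / 2 + t * I)‖ ^ 2 ≤ 1 + 1 / 5
        rw [norm_sq_pt]
        have := h13.2.2.1
        nlinarith
      have h10 := Set.encard_le_encard h9
      rw [Function.Injective.encard_image (fun a b hab => (Prod.mk.inj hab).1), hN,
        Set.encard_coe_eq_coe_finsetCard] at h10
      have h11 : S.card ≤ N := by exact_mod_cast h10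
      have h12 : (S.card : ℝ) ≤ N := by exact_mod_cast h11
      have h13 : Real.log t ≤ Real.log (2 * T) := Real.log_le_log (by linarith) h8
      have h14 := mul_le_mul_of_nonneg_left h13 hC'.le
      linarith
  -- the sum of both
  have hV : ENNReal.ofReal 2 * weight γ j (T + 1) (2 * T - 1) g ≤
      ENNReal.ofReal (T ^ ε) * volume (peaks c lam T) := by
    have e1 : ∑ n ∈ J, ENNReal.ofReal (2 * g) =
        ENNReal.ofReal 2 * (ENNReal.ofReal g *
          (clusters γ j (T + 1) (2 * T - 1) g : ENNReal)) := by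
      rw [Finset.sum_const, nsmul_eq_mul, clusters, Set.ncard_eq_toFinset_card _ hfin, ← hJ,
        ENNReal.ofReal_mul (by norm_num)]
      ring
    have e2 : ∑ ρ ∈ Z, ENNReal.ofReal (2 * Real.sqrt (ρ.re - 1 / 2)) =
        ENNReal.ofReal 2 * offSum (T + 1) (2 * T - 1) := by
      rw [offSum_eq, ← hZ, Finset.mul_sum]
      exact Finset.sum_congr rfl fun ρ _ => ENNReal.ofReal_mul (by norm_num)
    have e3 := add_le_add hV1 hV2
    rw [e1, e2, ← mul_add, ← add_mul, ← ENNReal.ofReal_add (by positivity) (by positivity)] at e3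
    rw [weight]
    refine e3.trans (mul_le_mul' (ENNReal.ofReal_le_ofReal ?_) le_rfl)
    linarith
  have h9 : 0 < T ^ ε := by positivity
  have h10 : ENNReal.ofReal (T ^ (-ε)) ≤ ENNReal.ofReal (T ^ ε)⁻¹ * ENNReal.ofReal 2 := by
    rw [← ENNReal.ofReal_mul (by positivity)]
    apply ENNReal.ofReal_le_ofReal
    rw [Real.rpow_neg (by linarith)]
    have : 0 < (T ^ ε)⁻¹ := by positivity
    linarith
  calc ENNReal.ofReal (T ^ (-ε)) * weight γ j (T + 1) (2 * T - 1) g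
      ≤ ENNReal.ofReal (T ^ ε)⁻¹ * ENNReal.ofReal 2 * weight γ j (T + 1) (2 * T - 1) g :=
        mul_le_mul' h10 le_rfl
    _ = ENNReal.ofReal (T ^ ε)⁻¹ * (ENNReal.ofReal 2 * weight γ j (T + 1) (2 * T - 1) g) := by
        rw [mul_assoc]
    _ ≤ ENNReal.ofReal (T ^ ε)⁻¹ * (ENNReal.ofReal (T ^ ε) * volume (peaks c lam T)) :=
        mul_le_mul' le_rfl hV
    _ = volume (peaks c lam T) := by
        rw [← mul_assoc, ← ENNReal.ofReal_mul (by positivity), inv_mul_cancel₀ h9.ne',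
          ENNReal.ofReal_one, one_mul]

end Pool.Agent.ZP31
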